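import Pool.Agent.ShghK.Spec

/-!
# ShghK, Flip: exchange of the coordinates
-/

namespace ShghK

open MvPolynomial ShghJ ShghC

universe u

private theorem flip_pt {K : Type u} [Field K] (x y : K) (m : ℕ) (f : MvPolynomial (Fin 2) K)
    (hf : f ∈ ShghT.pt x y ^ m) :
    rename (Equiv.swap (0 : Fin 2) 1) f ∈ ShghT.pt y x ^ m := by
  have h1 := Ideal.mem_map_of_mem (rename (R := K) (Equiv.swap (0 : Fin 2) 1)) hf
  rw [Ideal.map_pow] at h1
  refine Ideal.pow_right_mono ?_ m h1
  unfold ShghT.pt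
  rw [Ideal.map_span, Ideal.span_le]
  rintro _ ⟨g, hg, rfl⟩
  rcases hg with rfl | hg
  · refine Ideal.subset_span (Or.inr ?_)
    simp [algHom_C]
  · rw [Set.mem_singleton_iff] at hg
    subst hg
    refine Ideal.subset_span (Or.inl ?_)
    simp [algHom_C]

private theorem flip_mem {K : Type u} [Field K] (a b s : ℕ) (μ : Fin s → ℕ)
    (P : Fin s → Fin 2 → K) (f : MvPolynomial (Fin 2) K) (hf : f ∈ LN (Sf 0 a b) μ P) :
    rename (Equiv.swap (0 : Fin 2) 1) f ∈ LN (Sf 0 b a) μ (fun i => ![P i 1, P i 0]) := by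
  rw [mem_LN] at hf ⊢
  refine ⟨fun e he => ?_, fun i => ?_⟩
  · obtain ⟨v, hv, hv0⟩ := coeff_rename_ne_zero _ _ _ he
    have h1 := hf.1 v hv0
    rw [mem_Sf] at h1 ⊢
    have e0 : e 0 = v 1 := by
      rw [← hv]
      have := Finsupp.mapDomain_apply (Equiv.swap (0 : Fin 2) 1).injective v 1
      rwa [Equiv.swap_apply_right] at this
    have e1 : e 1 = v 0 := by
      rw [← hv]
      have := Finsupp.mapDomain_apply (Equiv.swap (0 : Fin 2) 1).injective v 0
      rwa [Equiv.swap_apply_left] at this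
    rw [e0, e1]
    omega
  · exact flip_pt _ _ _ _ (hf.2 i)

private theorem flip_algInd (F : Type u) [Field F] (s : ℕ) :
    AlgebraicIndependent F (fun ij : Fin s × Fin 2 =>
      (![up F ij.1 1, up F ij.1 0] : Fin 2 → UF F) ij.2) := by
  have h := (geo_algInd F (fun i : Fin s => (i : ℕ)) Fin.val_injective).comp
    (fun ij : Fin s × Fin 2 => (ij.1, Equiv.swap (0 : Fin 2) 1 ij.2)) (by
      rintro ⟨a, b⟩ ⟨a', b'⟩ h
      simp only [Prod.mk.injEq] at h
      rw [h.1, (Equiv.swap (0 : Fin 2) 1).injective h.2])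
  have e : (fun ij : Fin s × Fin 2 => (![up F ij.1 1, up F ij.1 0] : Fin 2 → UF F) ij.2) =
      (fun ij : Fin s × Fin 2 => up F (ij.1 : ℕ) ij.2) ∘
        (fun ij : Fin s × Fin 2 => (ij.1, Equiv.swap (0 : Fin 2) 1 ij.2)) := by
    funext ij
    obtain ⟨i, c⟩ := ij
    fin_cases c
    · simp
    · simp
  rw [e]
  exact h

private theorem flip_le (F : Type u) [Field F] (a b : ℕ) (B : Multiset ℕ) :
    hN F (Sf 0 a b) B ≤ hN F (Sf 0 b a) B := by
  have h1 := mNInv F (UF F) (Sf 0 b a) B.toList.length (fun i => B.toList.get i)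
    (fun i : Fin B.toList.length => ![up F i 1, up F i 0]) (flip_algInd F _)
  have e4 : (Finset.univ.val.map (fun i : Fin B.toList.length => B.toList.get i)) = B := by
    rw [Fin.univ_val_map, List.ofFn_get, Multiset.coe_toList]
  rw [e4] at h1
  rw [← h1]
  unfold hN
  have hfin := tNClo.1 (UF F) (Sf 0 b a) B.toList.length (fun i => B.toList.get i)
    (fun i : Fin B.toList.length => ![up F i 1, up F i 0])
  refine LinearMap.finrank_le_finrank_of_injective
    (f := ((rename (R := UF F) (Equiv.swap (0 : Fin 2) 1)).toLinearMap.restrict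
      (p := LN (Sf 0 a b) (fun i : Fin B.toList.length => B.toList.get i) (fun i => up F i))
      (q := LN (Sf 0 b a) (fun i : Fin B.toList.length => B.toList.get i)
        (fun i => ![up F i 1, up F i 0]))
      (fun f hf => flip_mem a b _ _ _ f hf))) ?_
  intro f g hfg
  apply Subtype.ext
  have h2 := congrArg Subtype.val hfg
  exact rename_injective _ (Equiv.swap (0 : Fin 2) 1).injective h2

/-- Exchange of the coordinates. -/
theorem tFlip : S_Flip.{u} := fun F _ a b B => le_antisymm (flip_le F a b B) (flip_le F b a B)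

end ShghK
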