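import Pool.Agent.ShghK.Spec

/-!
# ShghK, BoxWin: windows of a box
-/

set_option autoImplicit false

namespace ShghK

open MvPolynomial ShghJ ShghC

universe u

/-- The two windows of `tWinG` for the box. -/
private theorem bw_ab (h1 : S_Flip.{u}) (h2 : S_StripG0.{u}) (F : Type u) [Field F] [CharZero F]
    (μ L k : ℕ) (B : Multiset ℕ) (hμ : 1 ≤ μ) (hB : ∀ x ∈ B, x ≤ μ) (hL : 3 * μ ≤ L)
    (hk : 2 * μ ≤ k) :
    (1 ≤ hN F (Sf 0 k L) B → 2 * TT B + 2 ≤ 2 * ((k + 1) * (L + 1)) + μ * (L + 4 * μ)) ∧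
    (2 * TT B + (μ - 1) * (2 * L + 7 * μ + 4) < 2 * ((k + 1) * (L + 1)) →
      hN F (Sf 0 k L) B + TT B = (k + 1) * (L + 1)) := by
  have h := tWinG 0 L (fun e B => hN F (Sf 0 L e) B) (h2 F L) μ k B hμ hL hB (by omega)
  have hs : ∑ j ∈ Finset.range (L + 1), (k + 1 - 0 * j) = (k + 1) * (L + 1) := by
    simp [mul_comm]
  rw [hs] at h
  rw [h1 F k L B]
  exact h

private theorem bw_simple (F : Type u) [Field F] [CharZero F] (N : Finset (Fin 2 →₀ ℕ))
    (B : Multiset ℕ) (z : ℕ) :
    hN F N B ≤ hN F N (Multiset.replicate z 1 + B) + z := by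
  induction z with
  | zero => simp
  | succ z ih =>
    rw [Multiset.replicate_succ, Multiset.cons_add, mNSimple]
    omega

private theorem bw_TT (B : Multiset ℕ) (z : ℕ) : TT (Multiset.replicate z 1 + B) = z + TT B := by
  induction z with
  | zero => simp
  | succ z ih =>
    rw [Multiset.replicate_succ, Multiset.cons_add, TT_cons, ih, T_one]
    omega

private theorem bw_anti (F : Type u) [Field F] [CharZero F] (N : Finset (Fin 2 →₀ ℕ))
    (B : Multiset ℕ) (j m : ℕ) (h : j ≤ m) : hN F N (m ::ₘ B) ≤ hN F N (j ::ₘ B) := by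
  induction m, h using Nat.le_induction with
  | base => exact le_rfl
  | succ m _ ih => exact ((mMacN F N B m).2.1).trans ih

theorem tBoxWin (h1 : S_Flip.{u}) (h2 : S_StripG0.{u}) : S_BoxWin.{u} := by
  intro F _ _ μ L k W B hμ hB hL hk hW
  have hab := fun (B : Multiset ℕ) (hB : ∀ x ∈ B, x ≤ μ) => bw_ab h1 h2 F μ L k B hμ hB hL hk
  set N : ℕ := (k + 1) * (L + 1) with hN'
  have hNz : ((k : ℤ) + 1) * (L + 1) = (N : ℤ) := by
    rw [hN']
    push_cast
    ring
  rw [hNz]
  have hμz : (1 : ℤ) ≤ μ := by exact_mod_cast hμ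
  have hLz : 3 * (μ : ℤ) ≤ L := by exact_mod_cast hL
  have hW0 : 0 ≤ W := by nlinarith
  -- the numerical form of (b)
  have hnum : ((((μ - 1) * (2 * L + 7 * μ + 4) : ℕ)) : ℤ) =
      (μ : ℤ) * (2 * L + 7 * μ) - 3 * μ - 2 * L - 4 := by
    rw [Nat.cast_mul, Nat.cast_sub hμ]
    push_cast
    ring
  have hb : ∀ B : Multiset ℕ, (∀ x ∈ B, x ≤ μ) → W - μ < (N : ℤ) - TT B →
      (hN F (Sf 0 k L) B : ℤ) = (N : ℤ) - TT B := by
    intro B hB hx
    have h3 : 2 * TT B + (μ - 1) * (2 * L + 7 * μ + 4) < 2 * N := by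
      have : ((2 * TT B + (μ - 1) * (2 * L + 7 * μ + 4) : ℕ) : ℤ) < ((2 * N : ℕ) : ℤ) := by
        rw [Nat.cast_add, hnum]
        push_cast
        linarith
      exact_mod_cast this
    have h4 := (hab B hB).2 h3
    have h5 : ((hN F (Sf 0 k L) B : ℕ) : ℤ) + TT B = N := by exact_mod_cast h4
    linarith
  -- below the window
  have hA : ∀ B : Multiset ℕ, (∀ x ∈ B, x ≤ μ) → (N : ℤ) - TT B + W ≤ 0 →
      hN F (Sf 0 k L) B = 0 := by
    intro B hB hx
    by_contra hne
    have h3 := (hab B hB).1 (Nat.one_le_iff_ne_zero.2 hne)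
    have h4 : (2 * TT B + 2 : ℤ) ≤ 2 * N + μ * (L + 4 * μ) := by exact_mod_cast h3
    nlinarith
  -- adding simple points
  have hBz : ∀ B : Multiset ℕ, (∀ x ∈ B, x ≤ μ) → 0 ≤ (N : ℤ) - TT B + W →
      (hN F (Sf 0 k L) B : ℤ) ≤ (N : ℤ) - TT B + W := by
    intro B hB hx
    obtain ⟨z, hz⟩ := Int.eq_ofNat_of_zero_le hx
    have h3 := hA (Multiset.replicate z 1 + B) (by
      intro x hx
      rw [Multiset.mem_add] at hx
      rcases hx with hx | hx
      · rw [Multiset.eq_of_mem_replicate hx]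
        exact hμ
      · exact hB x hx) (by
      rw [bw_TT]
      push_cast
      linarith)
    have h4 := bw_simple F (Sf 0 k L) B z
    rw [h3, zero_add] at h4
    rw [hz]
    exact_mod_cast h4
  -- the maximum
  have hC : ∀ B : Multiset ℕ, (∀ x ∈ B, x ≤ μ) → (N : ℤ) - TT B ≤ W →
      (hN F (Sf 0 k L) B : ℤ) ≤ W := by
    intro B
    induction B using Multiset.induction_on with
    | empty =>
      intro hB hx
      rcases lt_or_ge (W - μ) ((N : ℤ) - TT 0) with h3 | h3
      · rw [hb 0 hB h3]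
        exact hx
      · have h4 := (mStA F 0 k).1 L
        have h5 : ∑ j ∈ Finset.range (k + 1), (L + 1 - 0 * j) = N := by
          rw [hN']
          simp
        rw [h5] at h4
        rw [h4]
        rw [TT_zero] at hx
        simpa using hx
    | cons m B1 ih =>
      intro hB hx
      have hB1 : ∀ x ∈ B1, x ≤ μ := fun x hx => hB x (Multiset.mem_cons_of_mem hx)
      rcases le_or_gt ((N : ℤ) - TT B1) W with h3 | h3
      · have h4 := (mStA F 0 k).2.2 L m B1
        have h5 := ih hB1 h3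
        have h6 : (hN F (Sf 0 k L) (m ::ₘ B1) : ℤ) ≤ hN F (Sf 0 k L) B1 := by exact_mod_cast h4
        linarith
      · classical
        have hex : ∃ j : ℕ, (N : ℤ) - TT (j ::ₘ B1) ≤ W := ⟨m, hx⟩
        have hj := Nat.find_spec hex
        have hjm : Nat.find hex ≤ m := Nat.find_min' hex hx
        have hjmin : ∀ i < Nat.find hex, ¬ (N : ℤ) - TT (i ::ₘ B1) ≤ W :=
          fun i hi => Nat.find_min hex hi
        generalize Nat.find hex = j at hj hjm hjmin
        have hmμ : m ≤ μ := hB m (Multiset.mem_cons_self m B1)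
        rcases j with _ | j
        · exfalso
          rw [TT_cons, T_zero] at hj
          push_cast at hj
          linarith
        · have h4 := hjmin j (Nat.lt_succ_self j)
          have h5 : (T (j + 1) : ℤ) = T j + (j + 1) := by
            exact_mod_cast T_succ j
          rw [TT_cons] at h4
          have h6 : W - μ < (N : ℤ) - TT ((j + 1) ::ₘ B1) := by
            rw [TT_cons]
            push_cast at h4 ⊢
            have h7 : ((j : ℤ) + 1) ≤ μ := by
              have : j + 1 ≤ μ := hjm.trans hmμ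
              exact_mod_cast this
            linarith
          have h8 := hb ((j + 1) ::ₘ B1) (by
            intro x hx
            rcases Multiset.mem_cons.1 hx with rfl | hx
            · exact hjm.trans hmμ
            · exact hB1 x hx) h6
          have h9 := bw_anti F (Sf 0 k L) B1 (j + 1) m hjm
          have h10 : (hN F (Sf 0 k L) (m ::ₘ B1) : ℤ) ≤ hN F (Sf 0 k L) ((j + 1) ::ₘ B1) := by
            exact_mod_cast h9
          linarith
  unfold phi
  set x : ℤ := (N : ℤ) - TT B with hx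
  rcases le_or_gt W x with h3 | h3
  · rw [hb B hB (by linarith)]
    exact (le_max_right 0 x).trans (le_max_left _ _)
  · rcases le_or_gt (x + W) 0 with h4 | h4
    · rw [hA B hB h4]
      exact (le_max_left (0 : ℤ) x).trans (le_max_left _ _)
    · exact (le_min (hC B hB h3.le) (hBz B hB h4.le)).trans (le_max_right _ _)

end ShghK
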