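import Pool.Agent.ShghK.Spec

/-! # ShghK: induction along the path -/

namespace ShghK

open MvPolynomial ShghJ ShghC

universe u

private theorem cTmono {a b : ℕ} (h : a ≤ b) : T a ≤ T b := by
  induction b, h using Nat.le_induction with
  | base => exact le_rfl
  | succ n _ ih => rw [T_succ]; omega

private theorem cTlt {a b : ℕ} (h : T a < T b) : a < b := by
  by_contra hc
  have := cTmono (not_lt.1 hc)
  omega

private theorem cExT (Y : ℕ) (hY : 1 ≤ Y) : ∃ d, T d < Y ∧ Y ≤ T (d + 1) := by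
  induction Y, hY using Nat.le_induction with
  | base => exact ⟨0, by rw [T_zero]; omega, by rw [T_succ]; omega⟩
  | succ n _ ih =>
    obtain ⟨d, hd1, hd2⟩ := ih
    by_cases h : n + 1 ≤ T (d + 1)
    · exact ⟨d, by omega, h⟩
    · refine ⟨d + 1, by omega, ?_⟩
      rw [T_succ (d + 1)]
      omega

private theorem cTTrep (n m : ℕ) : TT (Multiset.replicate n m) = n * T m := by
  simp [TT]

private def cS (Q p ρ i : ℕ) : ℕ := (Q + i) ^ 2 + (40 * i + 2 * (i - (p - ρ)))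

private def cU (p ρ i : ℕ) : ℕ := if p - ρ ≤ i then 1 else 0

private theorem cU_le (p ρ i : ℕ) : cU p ρ i ≤ 1 := by
  unfold cU
  split_ifs <;> omega

private theorem cS_succ (Q p ρ i : ℕ) :
    cS Q p ρ (i + 1) = cS Q p ρ i + (2 * (Q + i + 20 + cU p ρ i) + 1) := by
  have h1 : (Q + (i + 1)) ^ 2 = (Q + i) ^ 2 + 2 * (Q + i) + 1 := by ring
  have h2 : i + 1 - (p - ρ) = i - (p - ρ) + cU p ρ i := by
    unfold cU
    split_ifs <;> omega
  unfold cS
  rw [h1, h2]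
  ring

private theorem cS_ge (Q p ρ i : ℕ) : Q ^ 2 ≤ cS Q p ρ i := by
  unfold cS
  have : Q ^ 2 ≤ (Q + i) ^ 2 := Nat.pow_le_pow_left (by omega) 2
  omega

private theorem cS_le (Q p ρ i : ℕ) (hρ : ρ ≤ p) (hi : i ≤ p) :
    cS Q p ρ i ≤ (Q + p) ^ 2 + 40 * p + 2 * ρ := by
  unfold cS
  have : (Q + i) ^ 2 ≤ (Q + p) ^ 2 := Nat.pow_le_pow_left (by omega) 2
  omega

private theorem cS_top (Q p ρ : ℕ) (hρ : ρ ≤ p) :
    cS Q p ρ p = (Q + p) ^ 2 + 40 * p + 2 * ρ := by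
  unfold cS
  have : p - (p - ρ) = ρ := by omega
  rw [this]
  ring

private theorem cPI0 (F : Type u) [Field F] (W : ℤ) (_hW : 0 ≤ W) (K : Multiset ℕ)
    (hK : GT F K) : PI F W K := by
  intro e
  have h := hK e
  unfold phi
  omega

private theorem cStep (h1 : S_StepPI.{u}) (h2 : S_LineWin.{u}) (h3 : S_Num) (F : Type u) [Field F]
    [CharZero F] (m Q w z υ W : ℕ) (A : Multiset ℕ) (hWd : W = Q * m / 8) (hm : 1 ≤ m)
    (hQ : 2000 ≤ Q) (hQw : Q ≤ w) (hυ : υ ≤ 1) (hz : z ≤ 5 * w) (hwz : w ^ 2 + z ≤ 30 * m)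
    (hQm : 180000 * m ≤ Q ^ 3) (hwQ : 8 * w ≤ 9 * Q)
    (hA1 : 2 * TT A ≤ (w ^ 2 + z) * (m * (m + 1)) + 2 * Q * m)
    (hA2 : (w ^ 2 + z) * (m * (m + 1)) ≤ 2 * TT A + 2 * Q * m)
    (hA : PI F (W : ℤ) A) :
    PI F (W : ℤ) (A + Multiset.replicate (2 * (w + 20 + υ) + 1) m) := by
  have hW2 : 2 ≤ W := by
    have : 2000 * 1 ≤ Q * m := Nat.mul_le_mul hQ hm
    omega
  obtain ⟨u1, hu1, hu2⟩ := cExT (TT A + W) (by omega)
  have hu0 : 1 ≤ u1 := by
    by_contra hc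
    have h0 : u1 = 0 := by omega
    rw [h0, T_succ, T_zero] at hu2
    omega
  obtain ⟨u, rfl⟩ : ∃ u, u1 = u + 1 := ⟨u1 - 1, by omega⟩
  obtain ⟨d1, hd1, hd2⟩ := cExT (TT A + (2 * (w + 20 + υ) + 1) * T m + W) (by omega)
  have hud : u < d1 := by
    have h4 : T (u + 1) < T (d1 + 1) := by
      have : 0 ≤ (2 * (w + 20 + υ) + 1) * T m := Nat.zero_le _
      omega
    have := cTlt h4
    omega
  have hnum : ∀ d k : ℕ, d1 ≤ d + 2 → d ≤ d1 → d ≤ u + k + 2 → u + k ≤ d →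
      1 ≤ u ∧ 4 * W ≤ u + 2 ∧ u + 4 ≤ d1 ∧ ∃ μ L : ℕ, k = m + μ ∧ 1 ≤ μ ∧ μ ≤ m ∧ k ≤ d ∧
      L + (w + 20 + υ + 1) * m = d + (w + 20 + υ) * μ ∧ 3 * μ ≤ L ∧
      μ * (2 * L + 7 * μ) ≤ 2 * W := by
    intro d k hk1 hk2 hk3 hk4
    subst hWd
    exact h3 m Q w z υ (TT A) u d1 d k hm hQ hQw hυ hz hwz hQm hwQ hA1 hA2 hu1 hu2 hd1 hd2
      hk1 hk2 hk3 hk4
  obtain ⟨hn1, hn2, hn3, -⟩ := hnum d1 (d1 - u) (by omega) le_rfl (by omega) (by omega)
  have hTB : TT (Multiset.replicate (2 * (w + 20 + υ) + 1) m) =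
      (2 * (w + 20 + υ) + 1) * T m := cTTrep _ _
  have hTAB : TT (A + Multiset.replicate (2 * (w + 20 + υ) + 1) m) =
      TT A + (2 * (w + 20 + υ) + 1) * T m := by rw [ShghJ.TT_add, hTB]
  refine h1 F (W : ℤ) A _ u d1 (by omega) hn1 (by omega) (by omega) ?_ hn3 ?_ ?_ hA ?_
  · have hu2' : TT A + W ≤ T (u + 2) := hu2
    omega
  · rw [hTAB]
    omega
  · rw [hTAB]
    omega
  · intro d k hk1 hk2 hk3 hk4
    obtain ⟨-, -, -, μ, L, hkμ, hμ1, hμm, hkd, hL, hμL, hWL⟩ := hnum d k hk1 hk2 hk3 hk4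
    have h5 := h2 F d m μ (w + 20 + υ) L (W : ℤ) hμ1 hμm (by omega) hL hμL (by exact_mod_cast hWL)
    rw [hTB, hkμ]
    push_cast at h5 ⊢
    exact h5

theorem tChain (h1 : S_StepPI.{u}) (h2 : S_LineWin.{u}) (h3 : S_Num) : S_Chain.{u} := by
  intro F _ _ m Q p ρ K hm hQ hρp hρ hp hs hQm hK hK1 hK2
  have main : ∀ i : ℕ, i ≤ p → PI F ((Q * m / 8 : ℕ) : ℤ)
      (K + Multiset.replicate (cS Q p ρ i - Q ^ 2) m) := by
    intro i
    induction i with
    | zero =>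
      intro _
      have h0 : cS Q p ρ 0 - Q ^ 2 = 0 := by
        unfold cS
        simp
      rw [h0, Multiset.replicate_zero, add_zero]
      exact cPI0 F _ (by omega) K hK
    | succ i ih =>
      intro hi
      have hA := ih (by omega)
      have hge := cS_ge Q p ρ i
      have hle := cS_le Q p ρ i hρp (by omega)
      have hsplit : cS Q p ρ (i + 1) - Q ^ 2 =
          (cS Q p ρ i - Q ^ 2) + (2 * (Q + i + 20 + cU p ρ i) + 1) := by
        have := cS_succ Q p ρ i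
        omega
      rw [hsplit, Multiset.replicate_add, ← add_assoc]
      have hTA : 2 * TT (K + Multiset.replicate (cS Q p ρ i - Q ^ 2) m) =
          2 * TT K + (cS Q p ρ i - Q ^ 2) * (m * (m + 1)) := by
        rw [ShghJ.TT_add, cTTrep, ← two_T m]
        ring
      have hmul : Q ^ 2 * (m * (m + 1)) + (cS Q p ρ i - Q ^ 2) * (m * (m + 1)) =
          cS Q p ρ i * (m * (m + 1)) := by
        rw [← add_mul]
        congr 1
        omega
      have hcs : cS Q p ρ i = (Q + i) ^ 2 + (40 * i + 2 * (i - (p - ρ))) := rfl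
      refine cStep h1 h2 h3 F m Q (Q + i) (40 * i + 2 * (i - (p - ρ))) (cU p ρ i) (Q * m / 8) _
        rfl hm hQ (by omega) (cU_le p ρ i) (by omega) (by rw [← hcs]; omega) hQm (by omega)
        ?_ ?_ hA
      · rw [hTA, ← hcs]
        omega
      · rw [hTA, ← hcs]
        omega
  have := main p le_rfl
  rwa [cS_top Q p ρ hρp] at this

end ShghK
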