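import Pool.Agent.ShghK.Spec

/-!
# ShghK/ElmAB: general elementary transformations `n = 1 → 0` and `n = 0 → 1`
-/

set_option autoImplicit false

namespace ShghK

open MvPolynomial ShghJ ShghC

universe u

private theorem eab_deg {K : Type u} [Field K] (a b : K) (e : Fin 2 →₀ ℕ) (c : K) (j : Fin 2) :
    degreeOf j (ShghE.tfShift a b (monomial e c)) ≤ e j := by
  have h1 : (monomial e c : MvPolynomial (Fin 2) K) = C c * (X 0 ^ e 0 * X 1 ^ e 1) := by
    rw [← pm_mon, C_mul_monomial, mul_one]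
  rw [h1, map_mul, map_mul, map_pow, map_pow, ShghE.tfShift_C, ShghE.tfShift_X0,
    ShghE.tfShift_X1]
  have hX : ∀ (i : Fin 2) (d : K),
      degreeOf j (X i + C d : MvPolynomial (Fin 2) K) ≤ if j = i then 1 else 0 := by
    intro i d
    refine (degreeOf_add_le _ _ _).trans ?_
    rw [degreeOf_C, degreeOf_X]
    simp
  have g1 := degreeOf_mul_le j (C c) ((X 0 + C a) ^ e 0 * (X 1 + C b) ^ e 1)
  have g2 := degreeOf_mul_le j ((X 0 + C a : MvPolynomial (Fin 2) K) ^ e 0) ((X 1 + C b) ^ e 1)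
  have g3 := degreeOf_pow_le j (X 0 + C a : MvPolynomial (Fin 2) K) (e 0)
  have g4 := degreeOf_pow_le j (X 1 + C b : MvPolynomial (Fin 2) K) (e 1)
  rw [degreeOf_C, zero_add] at g1
  have g5 := Nat.mul_le_mul_left (e 0) (hX 0 a)
  have g6 := Nat.mul_le_mul_left (e 1) (hX 1 b)
  refine g1.trans (g2.trans ((Nat.add_le_add (g3.trans g5) (g4.trans g6)).trans ?_))
  fin_cases j <;> simp

private theorem eab_exp {K : Type u} [Field K] (a b : K) (f : MvPolynomial (Fin 2) K)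
    (x : Fin 2 →₀ ℕ) (hx : (ShghE.tfShift a b f).coeff x ≠ 0) :
    ∃ e, f.coeff e ≠ 0 ∧ x 0 ≤ e 0 ∧ x 1 ≤ e 1 := by
  rw [f.as_sum, map_sum, coeff_sum] at hx
  obtain ⟨e, he, hne⟩ := Finset.exists_ne_zero_of_sum_ne_zero hx
  refine ⟨e, mem_support_iff.1 he, ?_, ?_⟩
  · exact degreeOf_le_iff.1 (eab_deg a b e _ 0) x (mem_support_iff.2 hne)
  · exact degreeOf_le_iff.1 (eab_deg a b e _ 1) x (mem_support_iff.2 hne)

private theorem eab_zero {K : Type u} [Field K] (f : MvPolynomial (Fin 2) K) :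
    ShghE.tfShift (0 : K) 0 f = f := by
  have h4 : ShghE.tfShift (0 : K) 0 = AlgHom.id K (MvPolynomial (Fin 2) K) := by
    apply MvPolynomial.algHom_ext
    intro i
    fin_cases i
    · change ShghE.tfShift (0 : K) 0 (X 0) = X 0
      rw [ShghE.tfShift_X0, C_0, add_zero]
    · change ShghE.tfShift (0 : K) 0 (X 1) = X 1
      rw [ShghE.tfShift_X1, C_0, add_zero]
  rw [h4]
  rfl

private theorem eab_mul {K : Type u} [Field K] (m t : ℕ) (f : MvPolynomial (Fin 2) K)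
    (hf : ∀ e, f.coeff e ≠ 0 → m ≤ e 0 + e 1) :
    X 0 ^ m * pmR (fun e => ex (e 0 + e 1 - m) (t - e 1)) f =
      pmR (fun e => ex (e 0 + e 1) (t - e 1)) f := by
  rw [pmR_sum, pmR_sum, Finset.mul_sum]
  refine Finset.sum_congr rfl fun e he => ?_
  have h1 := hf e (mem_support_iff.1 he)
  have h2 : ∀ (e' : Fin 2 →₀ ℕ) (c : K), (monomial e' c : MvPolynomial (Fin 2) K) =
      c • monomial e' (1 : K) := by
    intro e' c
    rw [smul_monomial, smul_eq_mul, mul_one]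
  rw [h2, h2 (ex (e 0 + e 1) (t - e 1)), mul_smul_comm, pm_mon, pm_mon, ex_zero, ex_one, ex_zero,
    ex_one]
  congr 1
  rw [← mul_assoc, ← pow_add]
  congr 2
  omega

private theorem eab_up {F : Type u} [Field F] {i j : ℕ} (h : i ≠ j) (c : Fin 2) :
    up F i c ≠ up F j c := by
  intro hij
  have h1 := IsFractionRing.injective (MvPolynomial (ℕ × Fin 2) F) (UF F) hij
  have h2 := MvPolynomial.X_injective h1
  simp only [Prod.mk.injEq, and_true] at h2
  exact h h2

private theorem eab_main (F : Type u) [Field F] (N N' : Finset (Fin 2 →₀ ℕ)) (t m : ℕ)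
    (B : Multiset ℕ) (hm : m ≤ t)
    (hNN : ∀ e ∈ N, m ≤ e 0 + e 1 → e 1 ≤ t ∧ ex (e 0 + e 1 - m) (t - e 1) ∈ N')
    (hcl : ∀ e ∈ N', ∀ x : Fin 2 →₀ ℕ, x 0 ≤ e 0 → x 1 ≤ e 1 → x ∈ N') :
    hN F N (m ::ₘ B) ≤ hN F N' ((t - m) ::ₘ B) := by
  set p0 : UF F := up F 0 0 with hp0
  set p1 : UF F := up F 0 1 with hp1
  have hx : ∀ j : ℕ, up F (j + 1) 0 - p0 ≠ 0 := fun j =>
    sub_ne_zero.2 (eab_up (Nat.succ_ne_zero j) 0)
  have hy : ∀ j : ℕ, up F (j + 1) 1 - p1 ≠ 0 := fun j =>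
    sub_ne_zero.2 (eab_up (Nat.succ_ne_zero j) 1)
  set Q : Fin B.toList.length → Fin 2 → UF F := fun i =>
    ![up F (i + 1) 0 - p0, (up F (i + 1) 0 - p0) / (up F (i + 1) 1 - p1)] with hQ
  have a := elm_special tNSemi mNInv F N m B Q
  set V := fil (LN N (fun i : Fin B.toList.length => B.toList.get i) Q) 0 m with hV
  have b : ∀ f ∈ V, ∀ e', f.coeff e' ≠ 0 → m ≤ e' 0 + e' 1 ∧ e' ∈ N := by
    intro f hf e' he'
    exact ⟨elm_origin hf.2 e' he', hf.1.1 e' he'⟩
  rw [(mNCons F N' B).2 (t - m)]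
  set W := fil (LN N' (fun i : Fin B.toList.length => B.toList.get i) (fun i => up F (i + 1)))
    (up F 0) (t - m) with hW
  have hWf : Module.Finite (UF F) W :=
    geo_finite_of_le (geo_fil_le _ _ _) (tNClo.1 _ _ _ _ _)
  refine a.trans ?_
  refine elm_rank V W hWf
    ((ShghE.tfShift (-p0) (-p1)).toLinearMap ∘ₗ
      pmR (fun e => ex (e 0 + e 1 - m) (t - e 1)))
    (pmR (fun e => ex (e 0 + e 1 + m - t) (t - e 1)) ∘ₗ
      (ShghE.tfShift p0 p1).toLinearMap) (fun f hf => ?_) (fun f hf => ?_)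
  · set g := pmR (fun e => ex (e 0 + e 1 - m) (t - e 1)) f with hg
    change ShghE.tfShift (-p0) (-p1) g ∈ W
    have hgN : ∀ e, g.coeff e ≠ 0 → e ∈ N' ∧ t - m ≤ e 0 + e 1 := by
      intro e he
      obtain ⟨e'', he'', rfl⟩ := pmR_coeff _ f e he
      obtain ⟨c1, c2⟩ := b f hf e'' he''
      obtain ⟨c3, c4⟩ := hNN e'' c2 c1
      refine ⟨c4, ?_⟩
      simp only [ex_zero, ex_one]
      omega
    refine ⟨mem_LN.2 ⟨fun e he => ?_, fun i => ?_⟩, ?_⟩
    · obtain ⟨e', he', c1, c2⟩ := eab_exp _ _ g e he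
      exact hcl e' (hgN e' he').1 e c1 c2
    · have c1 := hf.1.2 i
      simp only [hQ, Matrix.cons_val_zero, Matrix.cons_val_one] at c1
      have c2 := elm0_mult t _ f _ _ (hy i) (fun e' he' => (hNN e' (b f hf e' he').2
        (b f hf e' he').1).1) c1
      rw [← eab_mul m t f fun e' he' => (b f hf e' he').1] at c2
      have c3 := tUnit _ _ _ _ _ _ (by
        rw [map_pow, eval_X]
        exact pow_ne_zero _ (hx i)) c2
      refine (ShghE.tf_mem_iff _ _ _ _).2 fun x hxd => ?_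
      rw [shift_shift, ← sub_eq_add_neg, ← sub_eq_add_neg]
      exact (ShghE.tf_mem_iff _ _ _ _).1 c3 x hxd
    · refine (ShghE.tf_mem_iff _ _ _ _).2 fun x hxd => ?_
      rw [shift_shift, ← hp0, ← hp1, add_neg_cancel, add_neg_cancel, eab_zero]
      by_contra hne
      have c1 := (hgN x hne).2
      rw [deg_eq] at hxd
      omega
  · change pmR (fun e => ex (e 0 + e 1 + m - t) (t - e 1)) (ShghE.tfShift p0 p1
      (ShghE.tfShift (-p0) (-p1) (pmR (fun e => ex (e 0 + e 1 - m) (t - e 1)) f))) = f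
    rw [shift_shift, add_neg_cancel, add_neg_cancel, eab_zero]
    refine pmR_inv _ _ f fun e' he' => ?_
    obtain ⟨c1, c2⟩ := b f hf e' he'
    obtain ⟨c3, -⟩ := hNN e' c2 c1
    simp only [ex_zero, ex_one]
    conv_rhs => rw [← ex_eta e']
    congr 1 <;> omega

theorem tElmA : S_ElmA.{u} := by
  intro F _ t m e B hm
  refine ⟨fun hme => ?_, fun hme => ?_⟩
  · refine eab_main F (Sf 1 t e) (Sf 0 t (e - m)) t m B hm ?_ ?_
    · intro x hx h
      rw [mem_Sf] at hx
      refine ⟨hx.1, ?_⟩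
      rw [mem_Sf, ex_zero, ex_one]
      omega
    · intro x hx y h0 h1
      rw [mem_Sf] at hx ⊢
      omega
  · have a := elm_special tNSemi mNInv F (Sf 1 t e) m B (fun _ => 0)
    have hz : fil (LN (Sf 1 t e) (fun i : Fin B.toList.length => B.toList.get i)
        (fun _ => (0 : Fin 2 → UF F))) 0 m = ⊥ := by
      rw [eq_bot_iff]
      intro f hf
      rw [Submodule.mem_bot]
      ext e'
      rw [coeff_zero]
      by_contra he'
      have c1 := elm_origin hf.2 e' he'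
      have c2 := mem_Sf.1 (hf.1.1 e' he')
      omega
    rw [hz, finrank_bot] at a
    exact Nat.le_zero.1 a

theorem tElmB : S_ElmB.{u} := by
  intro F _ t m e B hm
  refine eab_main F (Sf 0 t e) (Sf 1 t (e + (t - m))) t m B hm ?_ ?_
  · intro x hx h
    rw [mem_Sf] at hx
    refine ⟨hx.1, ?_⟩
    rw [mem_Sf, ex_zero, ex_one]
    omega
  · intro x hx y h0 h1
    rw [mem_Sf] at hx ⊢
    omega

end ShghK
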