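import Pool.Agent.ShghK.Spec

/-!
# ShghK, GlueL: gluing along a line with two incomplete rows
-/

namespace ShghK

open MvPolynomial ShghJ ShghC

universe u

private theorem gl_mem_S2 {τ δ r1 r2 : ℕ} {e : Fin 2 →₀ ℕ} :
    e ∈ S2 τ δ r1 r2 ↔ (e 1 < τ ∧ e 0 + e 1 ≤ δ) ∨ (e 1 = τ ∧ e 0 < r1) ∨
      (e 1 = τ + 1 ∧ e 0 < r2) := by
  unfold S2
  rw [mem_boxSet]
  constructor
  · rintro ⟨-, -, h⟩
    exact h
  · intro h
    refine ⟨?_, ?_, h⟩
    · rcases h with h | h | h <;> omega
    · rcases h with h | h | h <;> omega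

private theorem gl_rep (F : Type u) [Field F] [CharZero F]
    (N : Finset (Fin 2 →₀ ℕ)) (S : Multiset ℕ) (k : ℕ) :
    hN F N (Multiset.replicate k 1 + S) = hN F N S - k := by
  induction k with
  | zero => simp
  | succ k ih =>
    rw [Multiset.replicate_succ, Multiset.cons_add, mNSimple F N, ih]
    omega

/-- Gluing along a line with two incomplete rows. -/
theorem tGlueL : S_GlueL.{u} := by
  intro F _ _ d u A B hu hud h0
  have hchar : CharZero (UF F) := charZero_of_injective_algebraMap (algebraMap F (UF F)).injective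
  have hAj : ∀ j : ℕ, Module.finrank (UF F) (LN (Trap j j)
      (fun i : Fin A.toList.length => A.toList.get i) (fun i => up F ((i : ℕ) + 1))) =
      hF F j A := by
    intro j
    rw [← (mNCons F (Trap j j) A).1, hN_tri mProj]
  set N' := S2 (d - u - 1) d (hF F (u + 1) A - hF F u A) (hF F u A) with hNdef
  have key : ∀ B : Multiset ℕ, 1 ≤ hN F (Trap d d) (A + B) → 1 ≤ hN F N' B := by
    intro B hB
    refine glueRN F tNSemi mNInv tCol tRowZ tNClo d d 1 A B N' ?_ hB
    intro D hD1 hD0 hne e he
    have hX' : Module.finrank (UF F) (LN (Trap (d - (d - u + 1) * 1) (d - (d - u + 1)))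
        (fun i : Fin A.toList.length => A.toList.get i) (fun i => up F ((i : ℕ) + 1))) = 0 := by
      rw [mul_one, show d - (d - u + 1) = u - 1 by omega, hAj]
      exact h0
    have h12 := mXSide (UF F) D (up F 0 0) A.toList.length d d 1 (d - u)
      (fun i : Fin A.toList.length => A.toList.get i) (fun i => up F ((i : ℕ) + 1))
      hD1 hD0 hne le_rfl le_rfl hX' e he
    rw [mul_one (d - u), show d - (d - u) = u by omega, hAj, mem_St] at h12
    rw [hNdef, gl_mem_S2]
    have hrow : e 1 < d - u → e 0 + 1 + hF F (d - (e 1 + 1)) A ≤ hF F (d - e 1) A := by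
      intro hlt
      have h14 := tXRow tRowDiv mSeg tUnit tNClo D (up F 0 0) A.toList.length d 1 (e 1)
        (fun i : Fin A.toList.length => A.toList.get i) (fun i => up F ((i : ℕ) + 1))
        hD1 hD0 hne le_rfl (by omega) e he rfl
      rw [mul_one, mul_one, hAj, hAj] at h14
      exact h14
    rcases h12 with ⟨h13, -⟩ | ⟨h13, h14⟩
    · have h15 := hrow h13
      rcases Nat.lt_or_ge (e 1) (d - u - 1) with h16 | h16
      · left
        refine ⟨h16, ?_⟩
        have h17 := hF_succ_le F (d - (e 1 + 1)) A
        rw [show d - (e 1 + 1) + 1 = d - e 1 by omega] at h17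
        omega
      · right
        left
        have h17 : e 1 = d - u - 1 := by omega
        refine ⟨h17, ?_⟩
        rw [show d - (e 1 + 1) = u by omega, show d - e 1 = u + 1 by omega] at h15
        omega
    · right
      right
      exact ⟨by omega, h14⟩
  rw [← hN_tri mProj]
  by_contra hlt
  push Not at hlt
  have hz : 1 ≤ hN F (Trap d d) (A + (Multiset.replicate (hN F N' B) 1 + B)) := by
    have e : A + (Multiset.replicate (hN F N' B) 1 + B) =
        Multiset.replicate (hN F N' B) 1 + (A + B) := by
      rw [← add_assoc, ← add_assoc, add_comm A]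
    rw [e, gl_rep]
    omega
  have h12 := key (Multiset.replicate (hN F N' B) 1 + B) hz
  rw [gl_rep] at h12
  omega

end ShghK
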