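import Pool.Agent.ShghK.Spec

/-!
# ShghK, Hom23: the theorem
-/

namespace ShghK

open MvPolynomial ShghJ ShghC

universe u

private theorem h23_low (F : Type u) [Field F] [CharZero F] (A : Multiset ℕ) (d : ℕ) :
    T (d + 1) ≤ hF F d A + TT A := by
  have h2 := (hfun_hF F d fun n hn _ => Nat.cast_ne_zero.2 (by omega)).chi_le A
  omega

private theorem h23_T_mono {a b : ℕ} (h : a ≤ b) : T a ≤ T b := by
  obtain ⟨k, rfl⟩ := Nat.exists_eq_add_of_le h
  induction k with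
  | zero => exact le_rfl
  | succ k ih =>
    have h1 := T_succ (a + k)
    have h2 := ih (Nat.le_add_right a k)
    rw [← Nat.add_assoc]
    omega

private theorem h23_TT_rep (s m : ℕ) : TT (Multiset.replicate s m) = s * T m := by
  unfold TT
  rw [Multiset.map_replicate, Multiset.sum_replicate, smul_eq_mul]

/-- outside of the window the dimension is the expected one -/
private theorem h23_out (F : Type u) [Field F] [CharZero F] (W : ℕ) (S : Multiset ℕ)
    (hPI : PI F (W : ℤ) S) (d : ℕ)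
    (h : (W : ℤ) ≤ (T (d + 1) : ℤ) - TT S ∨ (T (d + 1) : ℤ) - TT S ≤ -(W : ℤ)) :
    hF F d S = T (d + 1) - TT S := by
  have h1 := hPI d
  have h2 := h23_low F S d
  unfold phi at h1
  omega

private theorem h23_size {m s : ℕ} (hm : 1 ≤ m) (hs : 10 ^ 11 * m ^ 2 ≤ s ^ 3) (h : s < 30 * m) :
    10 ^ 8 ≤ s := by
  by_contra hc
  push Not at hc
  have h1 : s ^ 2 ≤ (30 * m) ^ 2 := Nat.pow_le_pow_left h.le 2
  have h2 : 0 < m ^ 2 := by positivity
  have h3 : s ^ 3 = s * s ^ 2 := by ring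
  have h4 : s * s ^ 2 ≤ 10 ^ 8 * (30 * m) ^ 2 := Nat.mul_le_mul hc.le h1
  have h5 : 10 ^ 8 * (30 * m) ^ 2 = 900 * 10 ^ 8 * m ^ 2 := by ring
  have h6 : 900 * 10 ^ 8 * m ^ 2 < 10 ^ 11 * m ^ 2 := by
    apply Nat.mul_lt_mul_of_pos_right _ h2
    norm_num
  omega

private theorem h23_cube {m s Q : ℕ} (hs : 10 ^ 11 * m ^ 2 ≤ s ^ 3) (h : 7 * s ≤ 9 * Q ^ 2) :
    180000 * m ≤ Q ^ 3 := by
  have h1 : (7 * s) ^ 3 ≤ (9 * Q ^ 2) ^ 3 := Nat.pow_le_pow_left h 3
  have h2 : (7 * s) ^ 3 = 343 * s ^ 3 := by ring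
  have h3 : (9 * Q ^ 2) ^ 3 = 729 * (Q ^ 3) ^ 2 := by ring
  have h4 : (180000 * m) ^ 2 ≤ (Q ^ 3) ^ 2 := by
    have h5 : (180000 * m) ^ 2 = 32400000000 * m ^ 2 := by ring
    rw [h5]
    omega
  exact (Nat.pow_le_pow_iff_left (by norm_num)).1 h4

theorem tHom23 (h1 : S_Path) (h2 : S_Chain.{u}) (h3 : S_SqGT.{u}) (h4 : S_Kap) : S_Hom23.{u} := by
  intro F _ _ d m s hm hs
  rcases Nat.lt_or_ge s (30 * m) with hsm | hsm
  swap
  · exact mHom F d m s hm hsm
  have hs8 := h23_size hm hs hsm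
  obtain ⟨Q, p, ρ, hQ2, hρp, hρ, hsQ, hpQ, h79⟩ := h1 s hs8
  have hQ3 : 180000 * m ≤ Q ^ 3 := h23_cube hs h79
  have hQ : 2000 ≤ Q := by
    by_contra hc
    push Not at hc
    have h5 : Q ^ 2 ≤ 2000 ^ 2 := Nat.pow_le_pow_left hc.le 2
    omega
  have hQs : Q ^ 2 ≤ s := by
    rw [hsQ]
    have : Q ^ 2 ≤ (Q + p) ^ 2 := Nat.pow_le_pow_left (Nat.le_add_right Q p) 2
    omega
  have hQm : Q < m := by
    have h5 : 2000 * Q ≤ Q ^ 2 := by nlinarith
    omega
  obtain ⟨c, hc⟩ : ∃ c, Q = 2 * c := ⟨Q / 2, by omega⟩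
  have hc1 : 1 ≤ c := by omega
  have hcm : c ≤ m := by omega
  obtain ⟨hk1, hk2⟩ := h4 m c hm hc1
  obtain ⟨κ, hκ⟩ : ∃ κ, κ = 2 * c * m + c - 1 := ⟨_, rfl⟩
  have hκ1 : 2 * c * m + c = κ + 1 := by omega
  rw [hκ1] at hk1
  rw [← hκ] at hk2
  -- atoms
  obtain ⟨P, hP⟩ : ∃ P, P = c * m := ⟨_, rfl⟩
  obtain ⟨Y, hY⟩ : ∃ Y, Y = c ^ 2 := ⟨_, rfl⟩
  have hYP : Y ≤ P := by
    rw [hY, hP, pow_two]
    exact Nat.mul_le_mul_left c hcm
  have hcP : c ≤ P := by
    rw [hP]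
    exact Nat.le_mul_of_pos_right c hm
  have hκP : κ + 1 = 2 * P + c := by
    rw [← hκ1, hP]
    ring
  obtain ⟨TB, hTB⟩ : ∃ TB, TB = Q ^ 2 * T m := ⟨_, rfl⟩
  obtain ⟨TA, hTA⟩ : ∃ TA, TA = (s - Q ^ 2) * T m := ⟨_, rfl⟩
  have hsum : s * T m = TB + TA := by
    rw [hTB, hTA, ← Nat.add_mul, Nat.add_sub_cancel' hQs]
  have hTB2 : Q ^ 2 * (m * (m + 1)) = 2 * TB := by
    rw [hTB, ← two_T m]
    ring
  have hP4 : 2 * Q * m = 4 * P := by
    rw [hc, hP]
    ring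
  have hK1 : 2 * (T (κ + 1) : ℤ) = 2 * TB + 2 * P + c + Y := by
    have e1 : (TB : ℤ) = (2 * c) ^ 2 * T m := by
      rw [hTB, hc]
      push_cast
      ring
    have e2 : (P : ℤ) = c * m := by rw [hP]; push_cast; ring
    have e3 : (Y : ℤ) = c ^ 2 := by rw [hY]; push_cast; ring
    rw [e1, e2, e3]
    linear_combination hk1
  have hK2 : 2 * (T κ : ℤ) = 2 * TB - 2 * P - c + Y := by
    have e1 : (TB : ℤ) = (2 * c) ^ 2 * T m := by
      rw [hTB, hc]
      push_cast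
      ring
    have e2 : (P : ℤ) = c * m := by rw [hP]; push_cast; ring
    have e3 : (Y : ℤ) = c ^ 2 := by rw [hY]; push_cast; ring
    rw [e1, e2, e3]
    linear_combination -hk2
  obtain ⟨W, hW⟩ : ∃ W, W = Q * m / 8 := ⟨_, rfl⟩
  have hW2 : 8 * W ≤ 2 * P := by
    have e1 : Q * m = 2 * P := by
      rw [hc, hP]
      ring
    rw [hW, e1]
    omega
  -- the chain
  have hchain : ∀ K : Multiset ℕ, GT F K → 2 * TT K ≤ 2 * TB + 4 * P → 2 * TB ≤ 2 * TT K + 4 * P →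
      PI F (W : ℤ) (K + Multiset.replicate (s - Q ^ 2) m) := by
    intro K hK e1 e2
    have e3 := h2 F m Q p ρ K hm hQ hρp hρ hpQ (by rw [← hsQ]; exact hsm.le) hQ3 hK
      (by rw [hTB2, hP4]; exact e1) (by rw [hTB2, hP4]; exact e2)
    rw [← hsQ, ← hW] at e3
    exact e3
  have hone : ∀ n : ℕ, GT F {n} := by
    intro n
    have e1 := h3 F n 1
    rw [one_pow, Multiset.replicate_one] at e1
    exact e1
  have hTT1 : ∀ n : ℕ, TT {n} = T n := by
    intro n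
    unfold TT
    rw [Multiset.map_singleton, Multiset.sum_singleton]
  have hB : GT F (Multiset.replicate (Q ^ 2) m) := h3 F m Q
  have hTTB : TT (Multiset.replicate (Q ^ 2) m) = TB := by rw [h23_TT_rep, hTB]
  have hTTA : TT (Multiset.replicate (s - Q ^ 2) m) = TA := by rw [h23_TT_rep, hTA]
  have hPB := hchain _ hB (by rw [hTTB]; omega) (by rw [hTTB]; omega)
  have hP1 := hchain _ (hone κ) (by rw [hTT1]; omega) (by rw [hTT1]; omega)
  have hP2 := hchain _ (hone (κ + 1)) (by rw [hTT1]; omega) (by rw [hTT1]; omega)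
  have hrep : Multiset.replicate s m =
      Multiset.replicate (s - Q ^ 2) m + Multiset.replicate (Q ^ 2) m := by
    rw [← Multiset.replicate_add, Nat.sub_add_cancel hQs]
  have hTTs : TT (Multiset.replicate (s - Q ^ 2) m + Multiset.replicate (Q ^ 2) m) = TB + TA := by
    rw [TT_add, hTTA, hTTB, Nat.add_comm]
  rw [hrep, hsum, ← hTTs]
  by_cases hwin : (W : ℤ) ≤ (T (d + 1) : ℤ) - (TB + TA) ∨ (T (d + 1) : ℤ) - (TB + TA) ≤ -(W : ℤ)
  · rw [Multiset.add_comm (Multiset.replicate (Q ^ 2) m)] at hPB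
    refine h23_out F W _ hPB d ?_
    rw [hTTs]
    push_cast
    exact hwin
  · push Not at hwin
    have hTκd : T κ < T (d + 1) := by omega
    have hκd : κ ≤ d := by
      by_contra hcon
      push Not at hcon
      have := h23_T_mono (show d + 1 ≤ κ by omega)
      omega
    refine tReduce F d κ _ _ hB (by omega) hκd (by rw [hTTB]; omega) (by rw [hTTB]; omega) ?_ ?_
    · rw [← Multiset.singleton_add]
      refine h23_out F W _ hP1 d ?_
      rw [TT_add, hTT1, hTTA]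
      left
      push_cast
      omega
    · rw [← Multiset.singleton_add]
      refine h23_out F W _ hP2 d ?_
      rw [TT_add, hTT1, hTTA]
      right
      push_cast
      omega

end ShghK
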