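import Pool.Agent.ShghK.Spec

/-!
# ShghK: the numbers of the clusters and the path from `Q ^ 2` to `s`
-/

namespace ShghK

open MvPolynomial ShghJ ShghC

universe u

theorem tKap : S_Kap := by
  intro m c hm hc
  have h1 : (2 : ℤ) * T (2 * c * m + c) = (2 * c * m + c) * (2 * c * m + c + 1) := by
    exact_mod_cast two_T (2 * c * m + c)
  have h2 : (2 : ℤ) * T m = m * (m + 1) := by exact_mod_cast two_T m
  have h3 : (2 : ℤ) * T (2 * c * m + c - 1) = (2 * c * m + c - 1) * (2 * c * m + c) := by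
    obtain ⟨n, hn⟩ : ∃ n, 2 * c * m + c = n + 1 := ⟨2 * c * m + c - 1, by omega⟩
    have h4 : (2 : ℤ) * T n = n * (n + 1) := by exact_mod_cast two_T n
    have h5 : (2 : ℤ) * c * m + c = n + 1 := by exact_mod_cast hn
    rw [h5, hn, Nat.add_sub_cancel, h4]
    ring
  constructor
  · linear_combination h1 - (2 * (c : ℤ)) ^ 2 * h2
  · linear_combination (2 * (c : ℤ)) ^ 2 * h2 - h3

theorem tPath : S_Path := by
  intro s hs
  -- R
  obtain ⟨R, hR1, hR2, hR3⟩ : ∃ R : ℕ, R % 2 = s % 2 ∧ R ^ 2 + 1800 ≤ s ∧ s < (R + 2) ^ 2 + 1800 := by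
    set r := Nat.sqrt (s - 1800) with hr
    have h1 : r * r ≤ s - 1800 := Nat.sqrt_le _
    have h2 : s - 1800 < (r + 1) * (r + 1) := Nat.lt_succ_sqrt _
    by_cases h : r % 2 = s % 2
    · refine ⟨r, h, ?_, ?_⟩
      · rw [pow_two]
        omega
      · have : (r + 1) * (r + 1) ≤ (r + 2) ^ 2 := by nlinarith
        omega
    · have h0 : 1 ≤ r := by
        rcases Nat.eq_zero_or_pos r with h3 | h3
        · rw [h3] at h2
          omega
        · exact h3
      obtain ⟨q, hq⟩ : ∃ q, r = q + 1 := ⟨r - 1, by omega⟩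
      rw [hq] at h1 h2 h
      refine ⟨q, by omega, ?_, ?_⟩
      · have : q ^ 2 ≤ (q + 1) * (q + 1) := by nlinarith
        omega
      · have : (q + 2) ^ 2 = (q + 1 + 1) * (q + 1 + 1) := by ring
        rw [this]
        omega
  have hR4 : 9997 ≤ R := by
    by_contra h
    have : R + 2 ≤ 9998 := by omega
    have h2 : (R + 2) ^ 2 ≤ 9998 ^ 2 := Nat.pow_le_pow_left this 2
    norm_num at h2
    omega
  obtain ⟨D, hD⟩ : ∃ D, s = R ^ 2 + D := ⟨s - R ^ 2, by omega⟩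
  have hD2 : D % 2 = 0 := by
    have h1 : R ^ 2 % 2 = R % 2 := by
      rcases Nat.mod_two_eq_zero_or_one R with h | h
      · rw [Nat.pow_mod, h]
      · rw [Nat.pow_mod, h]
    omega
  have hD3 : D < 4 * R + 1804 := by nlinarith
  have hD4 : 1800 ≤ D := by omega
  obtain ⟨p, hp1, hp2, hp3⟩ : ∃ p : ℕ, p % 2 = R % 2 ∧ 40 * p ≤ D ∧ D < 40 * (p + 2) := by
    by_cases h : (D / 40) % 2 = R % 2
    · exact ⟨D / 40, h, by omega, by omega⟩
    · exact ⟨D / 40 - 1, by omega, by omega, by omega⟩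
  have hp4 : 9 * p ≤ R := by omega
  obtain ⟨Q, hQ⟩ : ∃ Q, R = Q + p := ⟨R - p, by omega⟩
  refine ⟨Q, p, (D - 40 * p) / 2, by omega, by omega, by omega, ?_, by omega, ?_⟩
  · rw [← hQ, hD]
    omega
  · have h1 : 8 * R ≤ 9 * Q := by omega
    have h2 : (8 * R) ^ 2 ≤ (9 * Q) ^ 2 := Nat.pow_le_pow_left h1 2
    have h3 : 9 * (28 * R + 7 * 1804) ≤ R ^ 2 := by nlinarith
    nlinarith

end ShghK
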