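import Pool.Agent.ShghK.Spec

/-!
# ShghK/LineIneq: the inequality for gluing along a line
-/

set_option autoImplicit false

namespace ShghK

open MvPolynomial ShghJ ShghC

universe u

theorem tLineIneq (h1 : S_GlueL.{u}) (h2 : S_TwoRow.{u}) : S_LineIneq.{u} := by
  intro F _ _ d u A B hu hd h0
  have hg := h1 F d u A B hu hd h0
  -- the numbers of the line
  have e1 := hF_succ_le F u A
  have e2 : hF F u A ≤ u + 1 := by
    have := hF_succ_le F (u - 1) A
    rw [Nat.sub_add_cancel hu, h0] at this
    omega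
  have hmono : hF F u A ≤ hF F (u + 1) A := by
    have h := (mStB F 1 (u + 1)).1 u A
    rw [Sf_one_eq_Trap (Nat.le_succ u), Sf_one_eq_Trap (le_refl (u + 1)), hN_tri mProj,
      hN_tri mProj] at h
    exact h
  have ht := h2 F (d - u - 1) d (hF F (u + 1) A - hF F u A) (hF F u A) B (by omega) (by omega)
  have r1 := mRaise F 1 (d - u - 1) d (hF F (u + 1) A - hF F u A) B (by omega) (by omega)
  have r2 := mRaise F 1 (d - u - 1 + 1) d (hF F u A) B (by omega) (by omega)
  rw [closeR_St_zero 1 (d - u - 1) d (by omega)] at r1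
  rw [closeR_St_zero 1 (d - u - 1 + 1) d (by omega)] at r2
  have c1 : d - u - 1 - 1 = d - u - 2 := by omega
  have c2 : d - u - 1 + 1 - 1 = d - u - 1 := by omega
  have c3 : d - u - 1 + 1 = d - u := by omega
  rw [c1] at r1
  rw [c2, c3] at r2
  rw [c3] at ht
  rcases r1 with r1 | r1 <;> rcases r2 with r2 | r2 <;> omega

end ShghK
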