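import Pool.Agent.ShghK.Spec

/-!
# ShghK/LineWin: `2 j + 1` points of multiplicity `m` on a strip of thickness `m + μ`
-/

set_option autoImplicit false

namespace ShghK

open MvPolynomial ShghJ ShghC

universe u

private theorem linewin_TT (n m : ℕ) : TT (Multiset.replicate n m) = n * T m := by
  simp [TT]

private theorem linewin_arith (d m μ j L : ℕ) (hL : L + (j + 1) * m = d + j * μ) :
    ((((m + μ : ℕ) : ℤ) + 1) * ((L : ℤ) + 1)) - (((2 * j + 1) * T μ : ℕ) : ℤ) =
      ((m : ℤ) + μ + 1) * (d + 1) - T (m + μ) - (2 * j + 1) * T m := by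
  have t1 : 2 * (T μ : ℤ) = μ * (μ + 1) := by exact_mod_cast two_T μ
  have t2 : 2 * (T m : ℤ) = m * (m + 1) := by exact_mod_cast two_T m
  have t3 : 2 * (T (m + μ) : ℤ) = (m + μ) * (m + μ + 1) := by exact_mod_cast two_T (m + μ)
  have hL' : (L : ℤ) = d + j * μ - (j + 1) * m := by
    have : (L : ℤ) + (j + 1) * m = d + j * μ := by exact_mod_cast hL
    linarith
  have h2 : 2 * ((((m + μ : ℕ) : ℤ) + 1) * ((L : ℤ) + 1) - (((2 * j + 1) * T μ : ℕ) : ℤ)) =
      2 * (((m : ℤ) + μ + 1) * (d + 1) - T (m + μ) - (2 * j + 1) * T m) := by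
    push_cast
    rw [hL']
    linear_combination (-(2 * (j : ℤ) + 1)) * t1 + t3 + (2 * (j : ℤ) + 1) * t2
  linarith

theorem tLineWin (h1 : S_Peel.{u}) (h2 : S_BoxWin.{u}) : S_LineWin.{u} := by
  intro F _ _ d m μ j L W hμ hm hd hL h3 hW
  have e1 : m + μ - m = μ := Nat.add_sub_cancel_left m μ
  have h4 := (h1 F (m + μ) m j d 0 (by omega) (by omega)).1 L (by rw [e1]; exact hL)
  rw [e1, add_zero, add_zero] at h4
  have h5 := h2 F μ L (m + μ) W (Multiset.replicate (2 * j + 1) μ) hμ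
    (fun x hx => (Multiset.eq_of_mem_replicate hx).le) h3 (by omega) hW
  rw [linewin_TT, linewin_arith d m μ j L hL] at h5
  exact le_trans (by exact_mod_cast h4) h5

end ShghK
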