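import Pool.Agent.ShghK.Spec

/-!
# ShghK/Peel: `2 j + 1` points of multiplicity `m` on a strip of thickness `t`
-/

set_option autoImplicit false

namespace ShghK

open MvPolynomial ShghJ ShghC

universe u

theorem tPeel (h1 : S_ElmA.{u}) (h2 : S_ElmB.{u}) : S_Peel.{u} := by
  intro F _ t m j
  induction j with
  | zero =>
    intro d B hm ht
    have e0 : Multiset.replicate (2 * 0 + 1) m + B = m ::ₘ B := by
      rw [Nat.mul_zero, Nat.zero_add, Multiset.replicate_one, Multiset.singleton_add]
    have e1 : Multiset.replicate (2 * 0 + 1) (t - m) + B = (t - m) ::ₘ B := by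
      rw [Nat.mul_zero, Nat.zero_add, Multiset.replicate_one, Multiset.singleton_add]
    rw [e0, e1]
    refine ⟨fun L hL => ?_, fun h => ?_⟩
    · have hL' : L = d - m ∧ m ≤ d := by omega
      rw [hL'.1]
      exact (h1 F t m d B hm).1 hL'.2
    · exact (h1 F t m d B hm).2 (by omega)
  | succ j ih =>
    intro d B hm ht
    have e0 : Multiset.replicate (2 * (j + 1) + 1) m + B =
        m ::ₘ m ::ₘ (Multiset.replicate (2 * j + 1) m + B) := by
      rw [show 2 * (j + 1) + 1 = (2 * j + 1) + 1 + 1 by ring, Multiset.replicate_succ,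
        Multiset.replicate_succ, Multiset.cons_add, Multiset.cons_add]
    have e1 : Multiset.replicate (2 * (j + 1) + 1) (t - m) + B =
        Multiset.replicate (2 * j + 1) (t - m) + ((t - m) ::ₘ (t - m) ::ₘ B) := by
      rw [show 2 * (j + 1) + 1 = (2 * j + 1) + 1 + 1 by ring, Multiset.replicate_succ,
        Multiset.replicate_succ, Multiset.cons_add, Multiset.cons_add, Multiset.add_cons,
        Multiset.add_cons]
    have e2 : (t - m) ::ₘ (t - m) ::ₘ (Multiset.replicate (2 * j + 1) m + B) =
        Multiset.replicate (2 * j + 1) m + ((t - m) ::ₘ (t - m) ::ₘ B) := by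
      rw [Multiset.add_cons, Multiset.add_cons]
    have key : m ≤ d → hN F (Sf 1 t d) (Multiset.replicate (2 * (j + 1) + 1) m + B) ≤
        hN F (Sf 1 t (d - m + (t - m)))
          (Multiset.replicate (2 * j + 1) m + ((t - m) ::ₘ (t - m) ::ₘ B)) := by
      intro hd
      rw [e0]
      refine ((h1 F t m d _ hm).1 hd).trans ?_
      rw [Multiset.cons_swap]
      refine (h2 F t m (d - m) _ hm).trans ?_
      rw [e2]
    have m1 : (j + 1 + 1) * m = (j + 1) * m + m := by ring
    have m2 : (j + 1) * (t - m) = j * (t - m) + (t - m) := by ring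
    refine ⟨fun L hL => ?_, fun h => ?_⟩
    · rw [m1, m2] at hL
      have hd : m ≤ d := by
        have : j * (t - m) ≤ j * m := Nat.mul_le_mul_left _ (by omega)
        have m3 : (j + 1) * m = j * m + m := by ring
        omega
      refine (key hd).trans ?_
      rw [e1]
      exact (ih (d - m + (t - m)) ((t - m) ::ₘ (t - m) ::ₘ B) hm ht).1 L (by omega)
    · rw [m1, m2] at h
      rcases Nat.lt_or_ge d m with hd | hd
      · rw [e0]
        exact (h1 F t m d _ hm).2 hd
      · have h3 := (ih (d - m + (t - m)) ((t - m) ::ₘ (t - m) ::ₘ B) hm ht).2 (by omega)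
        have h4 := key hd
        rw [h3] at h4
        exact Nat.le_zero.1 h4

end ShghK
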