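import Pool.Agent.ShghK.Spec
import Pool.Agent.ShghC.Rep
import Pool.Agent.ShghC.Clu
import Pool.Agent.ShghC.Four
import Pool.Agent.ShghC.Line

/-!
# ShghK/SqGT: square numbers of equal points
-/

namespace ShghK

open MvPolynomial ShghJ ShghC

universe u

private theorem sq_TT (b m : ℕ) : TT (Multiset.replicate b m) = b * T m := by
  unfold TT
  rw [Multiset.map_replicate, Multiset.sum_replicate, smul_eq_mul]

private theorem sq_simple (F : Type u) [Field F] [CharZero F] (N : Finset (Fin 2 →₀ ℕ)) (b : ℕ) :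
    hN F N (Multiset.replicate b 1) = hN F N 0 - b := by
  induction b with
  | zero => rfl
  | succ b ih =>
    rw [Multiset.replicate_succ, mNSimple F N, ih]
    omega

private theorem sq_none (F : Type u) [Field F] [CharZero F] (N : Finset (Fin 2 →₀ ℕ)) (b : ℕ) :
    hN F N (Multiset.replicate b 0) = hN F N 0 := by
  induction b with
  | zero => rfl
  | succ b ih => rw [Multiset.replicate_succ, (mMacN F N _ 0).1, ih]

private theorem sq_low (F : Type u) [Field F] (τ e m b : ℕ) :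
    hN F (Sf 1 τ e) 0 ≤ hN F (Sf 1 τ e) (Multiset.replicate b m) + b * T m := by
  induction b with
  | zero => simp
  | succ b ih =>
    have h := (mStA F 1 τ).2.1 e m (Multiset.replicate b m)
    rw [Multiset.replicate_succ, Nat.succ_mul]
    omega

private theorem sq_fib (F : Type u) [Field F] [CharZero F] (τ m : ℕ) (h : τ ≤ m) (b : ℕ) :
    ∀ B : Multiset ℕ,
    (∀ e, hN F (Sf 1 τ (e + b)) (Multiset.replicate b (m + 1) + B) ≤
      hN F (Sf 1 τ e) (Multiset.replicate b m + B)) ∧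
    ∀ d, d < b → hN F (Sf 1 τ d) (Multiset.replicate b (m + 1) + B) = 0 := by
  induction b with
  | zero => intro B; exact ⟨fun e => by simp, fun d hd => absurd hd (Nat.not_lt_zero d)⟩
  | succ b ih =>
    intro B
    have e1 : Multiset.replicate (b + 1) (m + 1) + B =
        (m + 1) ::ₘ (Multiset.replicate b (m + 1) + B) := by
      rw [Multiset.replicate_succ, Multiset.cons_add]
    have e2 : m ::ₘ (Multiset.replicate b (m + 1) + B) =
        Multiset.replicate b (m + 1) + (m ::ₘ B) := by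
      rw [Multiset.add_cons]
    have e3 : Multiset.replicate (b + 1) m + B = Multiset.replicate b m + (m ::ₘ B) := by
      rw [Multiset.replicate_succ, Multiset.cons_add, Multiset.add_cons]
    obtain ⟨f1, f2⟩ := mFib1 F 1 τ m (Multiset.replicate b (m + 1) + B) h
    rw [e2] at f1
    rw [e1, e3]
    obtain ⟨i1, i2⟩ := ih (m ::ₘ B)
    refine ⟨fun e => (f1 (e + b)).trans (i1 e), fun d hd => ?_⟩
    cases d with
    | zero => exact f2
    | succ d => exact Nat.le_zero.1 ((f1 d).trans (i2 d (by omega)).le)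

private theorem sq_mono (F : Type u) [Field F] {N N' : Finset (Fin 2 →₀ ℕ)} (h : N ⊆ N')
    (B : Multiset ℕ) : hN F N B ≤ hN F N' B := by
  unfold hN
  have := tNClo.1 (UF F) N' B.toList.length (fun i : Fin B.toList.length => B.toList.get i)
    (fun i => up F i)
  exact Submodule.finrank_mono fun f hf => ⟨fun e he => h (hf.1 e he), hf.2⟩

private theorem sq_hmono (F : Type u) [Field F] [CharZero F] (A : Multiset ℕ) (e : ℕ) :
    hF F e A ≤ hF F (e + 1) A := by
  have h := (mStB F 1 (e + 1)).1 e A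
  rw [Sf_one_eq_Trap (Nat.le_succ e), Sf_one_eq_Trap (le_refl (e + 1)), hN_tri mProj,
    hN_tri mProj] at h
  exact h

private theorem sq_hmono' (F : Type u) [Field F] [CharZero F] (A : Multiset ℕ) {e e' : ℕ}
    (h : e ≤ e') : hF F e A ≤ hF F e' A := by
  induction e', h using Nat.le_induction with
  | base => exact le_rfl
  | succ n _ ih => exact ih.trans (sq_hmono F A n)

private theorem sq_sum (D M : ℕ) (h : M ≤ D + 1) :
    ∑ k ∈ Finset.range (M + 1), (D + 1 - 1 * k) + T M = (M + 1) * (D + 1) := by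
  induction M with
  | zero => simp [T_zero]
  | succ M ih =>
    have := ih (by omega)
    rw [Finset.sum_range_succ, T_succ]
    have e : (M + 1 + 1) * (D + 1) = (M + 1) * (D + 1) + (D + 1) := by ring
    omega

/-- The strips. `m = μ + 1`, `n = q + 1`. -/
private theorem sq_strip (h2 : S_Peel.{u}) (F : Type u) [Field F] [CharZero F] (μ q E d : ℕ)
    (hμ : 1 ≤ μ) (hq : 1 ≤ q) (hE : E ≤ q) (hd : d + 1 = (q + 1) * (μ + 1) + E) :
    hN F (Sf 1 (μ + 1) d) (Multiset.replicate (2 * q + 1) (μ + 1)) = (μ + 2) * E ∧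
    hN F (Sf 1 (μ + 2) d) (Multiset.replicate (2 * q + 1) (μ + 1)) ≤
      (μ + 2) * E + (d - (μ + 1)) ∧
    hN F (Sf 1 μ d) (Multiset.replicate (2 * q + 1) (μ + 1)) = 0 ∧
    hN F (Sf 1 (μ - 1) d) (Multiset.replicate (2 * q + 1) (μ + 1)) = 0 := by
  have hem : ∀ k L : ℕ, hN F (Sf 0 k L) 0 = (k + 1) * (L + 1) := by
    intro k L
    rw [(mStA F 0 k).1 L]
    simp
  have e0 : (q + 1) * (μ + 1) = q * (μ + 1) + (μ + 1) := by ring
  have e00 : q * (μ + 1) = q * μ + q := by ring
  have hle : hN F (Sf 1 (μ + 1) d) (Multiset.replicate (2 * q + 1) (μ + 1)) ≤ (μ + 2) * E := by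
    obtain ⟨p1, p2⟩ := h2 F (μ + 1) (μ + 1) q d 0 le_rfl (by omega)
    rw [add_zero, Nat.sub_self, Nat.mul_zero, add_zero] at p2
    cases E with
    | zero => rw [p2 (by omega)]; exact Nat.zero_le _
    | succ E =>
      have := p1 E (by rw [Nat.sub_self, Nat.mul_zero]; omega)
      rw [add_zero, Nat.sub_self, add_zero, sq_none, hem] at this
      exact this
  have hge : (μ + 2) * E ≤ hN F (Sf 1 (μ + 1) d) (Multiset.replicate (2 * q + 1) (μ + 1)) := by
    have k1 := sq_low F (μ + 1) d (μ + 1) (2 * q + 1)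
    rw [(mStA F 1 (μ + 1)).1 d] at k1
    have k2 := sq_sum d (μ + 1) (by omega)
    have k3 := two_T (μ + 1)
    have k4 : (μ + 1 + 1) * (d + 1) = (μ + 2) * E + (2 * q + 1) * T (μ + 1) + T (μ + 1) := by
      rw [hd]
      have : (q + 1) * (2 * T (μ + 1)) = (2 * q + 1) * T (μ + 1) + T (μ + 1) := by ring
      have k5 : (μ + 1 + 1) * ((q + 1) * (μ + 1) + E) =
        (μ + 2) * E + (q + 1) * ((μ + 1) * (μ + 1 + 1)) := by ring
      rw [k5, ← k3]
      omega
    omega
  refine ⟨le_antisymm hle hge, ?_, ?_, ?_⟩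
  · obtain ⟨p1, -⟩ := h2 F (μ + 2) (μ + 1) q d 0 (by omega) (by omega)
    have e1 : μ + 2 - (μ + 1) = 1 := by omega
    rw [e1] at p1
    have := p1 (E + q - 1) (by omega)
    rw [add_zero, add_zero, sq_simple, hem] at this
    refine this.trans ?_
    have e2 : E + q - 1 + 1 = E + q := by omega
    rw [e2]
    have e3 : (μ + 2 + 1) * (E + q) = (μ + 2) * E + E + (q * μ + 3 * q) := by ring
    have e4 : d - (μ + 1) + 1 = q * μ + q + E := by omega
    omega
  · by_cases hdb : d < 2 * q + 1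
    · have := (sq_fib F μ μ le_rfl (2 * q + 1) 0).2 d hdb
      rwa [add_zero] at this
    · obtain ⟨e, rfl⟩ : ∃ e, d = e + (2 * q + 1) := ⟨d - (2 * q + 1), by omega⟩
      have k1 := (sq_fib F μ μ le_rfl (2 * q + 1) 0).1 e
      rw [add_zero, add_zero] at k1
      obtain ⟨-, p2⟩ := h2 F μ μ q e 0 le_rfl (by omega)
      rw [add_zero, Nat.sub_self, Nat.mul_zero, add_zero] at p2
      have e5 : (q + 1) * μ = q * μ + μ := by ring
      rw [p2 (by omega)] at k1
      exact Nat.le_zero.1 k1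
  · have hz : hN F (Sf 1 μ d) (Multiset.replicate (2 * q + 1) (μ + 1)) = 0 := by
      by_cases hdb : d < 2 * q + 1
      · have := (sq_fib F μ μ le_rfl (2 * q + 1) 0).2 d hdb
        rwa [add_zero] at this
      · obtain ⟨e, rfl⟩ : ∃ e, d = e + (2 * q + 1) := ⟨d - (2 * q + 1), by omega⟩
        have k1 := (sq_fib F μ μ le_rfl (2 * q + 1) 0).1 e
        rw [add_zero, add_zero] at k1
        obtain ⟨-, p2⟩ := h2 F μ μ q e 0 le_rfl (by omega)
        rw [add_zero, Nat.sub_self, Nat.mul_zero, add_zero] at p2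
        have e5 : (q + 1) * μ = q * μ + μ := by ring
        rw [p2 (by omega)] at k1
        exact Nat.le_zero.1 k1
    have hm := sq_mono F (N := Sf 1 (μ - 1) d) (N' := Sf 1 μ d)
      (fun x hx => by rw [mem_Sf] at hx ⊢; omega) (Multiset.replicate (2 * q + 1) (μ + 1))
    rw [hz] at hm
    exact Nat.le_zero.1 hm

/-- The line with `m + 1` rows. -/
private theorem sq_lineA (h1 : S_LineIneq.{u}) (h2 : S_Peel.{u}) (F : Type u) [Field F]
    [CharZero F] (μ q E d v : ℕ) (A : Multiset ℕ) (hμ : 1 ≤ μ) (hq : 1 ≤ q) (hE : E ≤ q)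
    (hd : d + 1 = (q + 1) * (μ + 1) + E) (hv : 1 ≤ v) (hvd : d = v + (μ + 2))
    (h0 : hF F (v - 1) A = 0) :
    (hF F d (A + Multiset.replicate (2 * q + 1) (μ + 1)) : ℤ) ≤
      max (0 : ℤ) (((μ : ℤ) + 2) * E + hF F (v + 1) A - hF F v A - (v + 2)) + hF F v A := by
  obtain ⟨n1, n2, n3, -⟩ := sq_strip h2 F μ q E d hμ hq hE hd
  have key := h1 F d v A (Multiset.replicate (2 * q + 1) (μ + 1)) hv (by omega) h0
  have e1 : d - v - 2 = μ := by omega
  have e2 : d - v - 1 = μ + 1 := by omega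
  have e3 : d - v = μ + 2 := by omega
  rw [e1, e2, e3, n1, n3] at key
  have n2' : (hN F (Sf 1 (μ + 2) d) (Multiset.replicate (2 * q + 1) (μ + 1)) : ℤ) ≤
      (μ + 2) * E + (v + 1) := by
    have : d - (μ + 1) = v + 1 := by omega
    rw [this] at n2
    exact_mod_cast n2
  have hz : (0 : ℤ) ≤ hF F v A := Int.natCast_nonneg _
  push_cast at key
  refine key.trans (add_le_add le_rfl (max_le hz ?_))
  linarith

/-- The line with `m` rows. -/
private theorem sq_lineB (h1 : S_LineIneq.{u}) (h2 : S_Peel.{u}) (F : Type u) [Field F]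
    [CharZero F] (μ q E d v : ℕ) (A : Multiset ℕ) (hμ : 1 ≤ μ) (hq : 1 ≤ q) (hE : E ≤ q)
    (hd : d + 1 = (q + 1) * (μ + 1) + E) (hv : 1 ≤ v) (hvd : d = v + (μ + 1))
    (h0 : hF F v A = 0) (h3 : (μ + 2) * E ≤ v + 1) :
    hF F d (A + Multiset.replicate (2 * q + 1) (μ + 1)) = 0 := by
  obtain ⟨n1, -, n3, n4⟩ := sq_strip h2 F μ q E d hμ hq hE hd
  have h0' : hF F (v - 1) A = 0 :=
    Nat.le_zero.1 ((sq_hmono' F A (Nat.sub_le v 1)).trans h0.le)
  have key := h1 F d v A (Multiset.replicate (2 * q + 1) (μ + 1)) hv (by omega) h0'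
  have e1 : d - v - 2 = μ - 1 := by omega
  have e2 : d - v - 1 = μ := by omega
  have e3 : d - v = μ + 1 := by omega
  have h4 := hF_succ_le F v A
  rw [h0] at h4
  rw [e1, e2, e3, n1, n3, n4, h0] at key
  have h4' : (hF F (v + 1) A : ℤ) ≤ v + 2 := by exact_mod_cast (by omega : hF F (v + 1) A ≤ v + 2)
  have h3' : ((μ : ℤ) + 2) * E ≤ v + 1 := by exact_mod_cast h3
  push_cast at key
  have k1 : max (0 : ℤ) (0 + (hF F (v + 1) A : ℤ) - 0 - (v + 2)) = 0 := max_eq_left (by linarith)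
  have k2 : max (0 : ℤ) (((μ : ℤ) + 2) * E - 0 - (v + 1) + 0) = 0 := max_eq_left (by linarith)
  rw [k1, k2] at key
  omega

/-- The induction step. -/
private theorem sq_step (h1 : S_LineIneq.{u}) (h2 : S_Peel.{u}) (F : Type u) [Field F]
    [CharZero F] (μ q : ℕ) (hμ : 1 ≤ μ) (hq : 2 ≤ q) (hqm : q + 1 ≤ 4 * (μ + 1))
    (hA : GT F (Multiset.replicate (q ^ 2) (μ + 1))) :
    GT F (Multiset.replicate ((q + 1) ^ 2) (μ + 1)) := by
  have hS : Multiset.replicate ((q + 1) ^ 2) (μ + 1) =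
      Multiset.replicate (q ^ 2) (μ + 1) + Multiset.replicate (2 * q + 1) (μ + 1) := by
    rw [← Multiset.replicate_add]
    congr 1
    ring
  have tm := two_T (μ + 1)
  -- it is enough to have a degree `D` with these properties
  suffices h : ∃ D, hF F (D + 1) (Multiset.replicate ((q + 1) ^ 2) (μ + 1)) +
      (q + 1) ^ 2 * T (μ + 1) ≤ T (D + 2) ∧ hF F D (Multiset.replicate ((q + 1) ^ 2) (μ + 1)) = 0 ∧
      T (D + 1) ≤ (q + 1) ^ 2 * T (μ + 1) by
    obtain ⟨D, d1, d2, d3⟩ := h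
    intro j
    rw [sq_TT]
    rcases Nat.lt_or_ge D j with hj | hj
    · obtain ⟨k, rfl⟩ : ∃ k, j = D + 1 + k := ⟨j - (D + 1), by omega⟩
      have c1 := (hfun_hF F (D + 1) fun n hn _ => Nat.cast_ne_zero.2 (by omega)).chi_le
        (Multiset.replicate ((q + 1) ^ 2) (μ + 1))
      have c2 := hF_exact_mono F (Multiset.replicate ((q + 1) ^ 2) (μ + 1)) (D + 1) k
        (le_antisymm (by rw [sq_TT]; exact d1) c1)
      rw [sq_TT] at c2
      omega
    · have c1 := sq_hmono' F (Multiset.replicate ((q + 1) ^ 2) (μ + 1)) hj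
      have c2 : T (j + 1) ≤ T (D + 1) := by
        have t1 := two_T (j + 1)
        have t2 := two_T (D + 1)
        have : (j + 1) * (j + 1 + 1) ≤ (D + 1) * (D + 1 + 1) :=
          Nat.mul_le_mul (by omega) (by omega)
        omega
      omega
  have hGT : ∀ j, hF F j (Multiset.replicate (q ^ 2) (μ + 1)) =
      T (j + 1) - q ^ 2 * T (μ + 1) := by
    intro j
    rw [hA j, sq_TT]
  rcases Nat.even_or_odd' q with ⟨r, hr | hr⟩
  · -- `n = 2 r + 1` is odd
    subst hr
    have hr1 : 1 ≤ r := by omega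
    have hrm : r < 2 * (μ + 1) := by omega
    obtain ⟨v, hv⟩ : ∃ v, v + 2 = 2 * r * (μ + 1) + r := ⟨2 * r * (μ + 1) + r - 2, by
      have : 2 * r * (μ + 1) = 2 * (r * μ) + 2 * r := by ring
      omega⟩
    have em : 2 * r * (μ + 1) = 2 * (r * μ) + 2 * r := by ring
    have hrr : r * r ≤ 2 * (r * μ) + r := by
      have : r * r ≤ r * (2 * μ + 1) := Nat.mul_le_mul_left _ (by omega)
      have e : r * (2 * μ + 1) = 2 * (r * μ) + r := by ring
      omega
    have h1m : 1 ≤ r * μ := Nat.mul_pos hr1 hμ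
    have hv1 : 1 ≤ v := by omega
    -- dimensions for `A`
    have g0 : hF F v (Multiset.replicate ((2 * r) ^ 2) (μ + 1)) = 0 := by
      rw [hGT]
      have t1 := two_T (v + 1)
      have : (v + 1) * (v + 1 + 1) ≤ (2 * r) ^ 2 * ((μ + 1) * (μ + 1 + 1)) := by
        have e1 : ((v : ℤ) + 2) = 2 * r * (μ + 1) + r := by exact_mod_cast hv
        have e2 : (r : ℤ) * r ≤ 2 * (r * μ) + r := by exact_mod_cast hrr
        have e3 : ((v : ℤ) + 1) * (v + 1 + 1) ≤ (2 * r) ^ 2 * ((μ + 1) * (μ + 1 + 1)) := by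
          have e4 : (v : ℤ) = 2 * r * (μ + 1) + r - 2 := by linarith
          rw [e4]
          nlinarith
        exact_mod_cast e3
      have e5 : (2 * r) ^ 2 * ((μ + 1) * (μ + 1 + 1)) = 2 * ((2 * r) ^ 2 * T (μ + 1)) := by
        rw [← tm]; ring
      omega
    have g1 : 2 * (hF F (v + 1) (Multiset.replicate ((2 * r) ^ 2) (μ + 1))) =
        2 * r * (μ + 1) + r + r * r := by
      rw [hGT]
      have t1 := two_T (v + 1 + 1)
      have e5 : (2 * r) ^ 2 * ((μ + 1) * (μ + 1 + 1)) = 2 * ((2 * r) ^ 2 * T (μ + 1)) := by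
        rw [← tm]; ring
      have e6 : (v + 1 + 1) * (v + 1 + 1 + 1) = (2 * r) ^ 2 * ((μ + 1) * (μ + 1 + 1)) +
          (2 * r * (μ + 1) + r + r * r) := by
        have : v + 1 + 1 = 2 * r * (μ + 1) + r := by omega
        rw [this]
        ring
      omega
    refine ⟨v + (μ + 1), ?_, ?_, ?_⟩
    · have key := sq_lineA h1 h2 F μ (2 * r) r (v + (μ + 1) + 1) v
        (Multiset.replicate ((2 * r) ^ 2) (μ + 1)) hμ (by omega) (by omega)
        (by
          have : (2 * r + 1) * (μ + 1) = 2 * r * (μ + 1) + (μ + 1) := by ring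
          omega) hv1 (by omega)
        (Nat.le_zero.1 ((sq_hmono' F _ (Nat.sub_le v 1)).trans g0.le))
      rw [← hS, g0] at key
      have g1' : 2 * (hF F (v + 1) (Multiset.replicate ((2 * r) ^ 2) (μ + 1)) : ℤ) =
        2 * r * (μ + 1) + r + r * r := by exact_mod_cast g1
      have e1 : ((v : ℤ) + 2) = 2 * r * (μ + 1) + r := by exact_mod_cast hv
      have k1 : 2 * (((μ : ℤ) + 2) * r + (hF F (v + 1)
          (Multiset.replicate ((2 * r) ^ 2) (μ + 1)) : ℤ) - (0 : ℕ) - (v + 2)) = r * r + r := by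
        push_cast
        linear_combination g1' - 2 * e1
      have k2 : (0 : ℤ) ≤ ((μ : ℤ) + 2) * r + (hF F (v + 1)
          (Multiset.replicate ((2 * r) ^ 2) (μ + 1)) : ℤ) - (0 : ℕ) - (v + 2) := by
        have : (0 : ℤ) ≤ (r : ℤ) * r + r := by positivity
        linarith
      rw [max_eq_right k2] at key
      have t1 : 2 * (T (v + (μ + 1) + 2) : ℤ) = ((v : ℤ) + (μ + 1) + 2) * (v + (μ + 1) + 2 + 1) := by
        exact_mod_cast two_T (v + (μ + 1) + 2)
      have tm' : 2 * (T (μ + 1) : ℤ) = (μ + 1) * (μ + 1 + 1) := by exact_mod_cast tm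
      have goal : (hF F (v + (μ + 1) + 1) (Multiset.replicate ((2 * r + 1) ^ 2) (μ + 1)) : ℤ) +
          (2 * r + 1) ^ 2 * T (μ + 1) ≤ T (v + (μ + 1) + 2) := by
        have e4 : (v : ℤ) = 2 * r * (μ + 1) + r - 2 := by linarith
        have k3 : 2 * (T (v + (μ + 1) + 2) : ℤ) = (2 * r + 1) ^ 2 * (2 * T (μ + 1)) + (r * r + r) := by
          rw [t1, tm', e4]
          ring
        push_cast at key k1 k2 ⊢
        linarith
      exact_mod_cast goal
    · have key := sq_lineB h1 h2 F μ (2 * r) (r - 1) (v + (μ + 1)) v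
        (Multiset.replicate ((2 * r) ^ 2) (μ + 1)) hμ (by omega) (by omega)
        (by
          have : (2 * r + 1) * (μ + 1) = 2 * r * (μ + 1) + (μ + 1) := by ring
          omega) hv1 rfl g0
        (by
          obtain ⟨s, rfl⟩ : ∃ s, r = s + 1 := ⟨r - 1, by omega⟩
          have : (μ + 2) * (s + 1 - 1) = s * μ + 2 * s := by rw [Nat.add_sub_cancel]; ring
          have e7 : 2 * (s + 1) * (μ + 1) = 2 * (s * μ) + 2 * s + 2 * μ + 2 := by ring
          omega)
      rw [hS]
      exact key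
    · have t1 := two_T (v + (μ + 1) + 1)
      have : (v + (μ + 1) + 1) * (v + (μ + 1) + 1 + 1) ≤
          (2 * r + 1) ^ 2 * ((μ + 1) * (μ + 1 + 1)) := by
        have e1 : ((v : ℤ) + 2) = 2 * r * (μ + 1) + r := by exact_mod_cast hv
        have e2 : (r : ℤ) * r ≤ 2 * (r * μ) + r := by exact_mod_cast hrr
        have e3 : ((v : ℤ) + (μ + 1) + 1) * (v + (μ + 1) + 1 + 1) ≤
            (2 * r + 1) ^ 2 * ((μ + 1) * (μ + 1 + 1)) := by
          have e4 : (v : ℤ) = 2 * r * (μ + 1) + r - 2 := by linarith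
          rw [e4]
          have e8 : (1 : ℤ) ≤ μ := by exact_mod_cast hμ
          have e9 : (1 : ℤ) ≤ r := by exact_mod_cast hr1
          nlinarith
        exact_mod_cast e3
      have e5 : (2 * r + 1) ^ 2 * ((μ + 1) * (μ + 1 + 1)) = 2 * ((2 * r + 1) ^ 2 * T (μ + 1)) := by
        rw [← tm]; ring
      omega
  · -- `n = 2 r + 2` is even
    subst hr
    have hr1 : 1 ≤ r := by omega
    have hrm : r + 1 ≤ 2 * (μ + 1) := by omega
    have em : 2 * r * (μ + 1) = 2 * (r * μ) + 2 * r := by ring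
    have h1m : 1 ≤ r * μ := Nat.mul_pos hr1 hμ
    obtain ⟨v, hv⟩ : ∃ v, v + 2 = 2 * r * (μ + 1) + (μ + 1) + r :=
      ⟨2 * r * (μ + 1) + (μ + 1) + r - 2, by omega⟩
    have hrr : r * r ≤ 2 * (r * μ) + r := by
      have : r * r ≤ r * (2 * μ + 1) := Nat.mul_le_mul_left _ (by omega)
      have e : r * (2 * μ + 1) = 2 * (r * μ) + r := by ring
      omega
    have hv1 : 1 ≤ v := by omega
    have e1 : ((v : ℤ) + 2) = 2 * r * (μ + 1) + (μ + 1) + r := by exact_mod_cast hv
    have e4 : (v : ℤ) = 2 * r * (μ + 1) + (μ + 1) + r - 2 := by linarith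
    have e2 : (r : ℤ) * r ≤ 2 * (r * μ) + r := by exact_mod_cast hrr
    have e8 : (1 : ℤ) ≤ μ := by exact_mod_cast hμ
    have e9 : (1 : ℤ) ≤ r := by exact_mod_cast hr1
    have e10 : (1 : ℤ) ≤ r * μ := by exact_mod_cast h1m
    have tm' : 2 * (T (μ + 1) : ℤ) = (μ + 1) * (μ + 1 + 1) := by exact_mod_cast tm
    have e5 : (2 * r + 1) ^ 2 * ((μ + 1) * (μ + 1 + 1)) = 2 * ((2 * r + 1) ^ 2 * T (μ + 1)) := by
      rw [← tm]; ring
    have g0 : hF F v (Multiset.replicate ((2 * r + 1) ^ 2) (μ + 1)) = 0 := by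
      rw [hGT]
      have t1 := two_T (v + 1)
      have : (v + 1) * (v + 1 + 1) ≤ (2 * r + 1) ^ 2 * ((μ + 1) * (μ + 1 + 1)) := by
        have e3 : ((v : ℤ) + 1) * (v + 1 + 1) ≤ (2 * r + 1) ^ 2 * ((μ + 1) * (μ + 1 + 1)) := by
          rw [e4]
          nlinarith
        exact_mod_cast e3
      omega
    have g1 : 2 * (hF F (v + 1) (Multiset.replicate ((2 * r + 1) ^ 2) (μ + 1))) =
        r * r + r := by
      rw [hGT]
      have t1 := two_T (v + 1 + 1)
      have e6 : (v + 1 + 1) * (v + 1 + 1 + 1) = (2 * r + 1) ^ 2 * ((μ + 1) * (μ + 1 + 1)) +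
          (r * r + r) := by
        have : v + 1 + 1 = 2 * r * (μ + 1) + (μ + 1) + r := by omega
        rw [this]
        ring
      omega
    have g1' : 2 * (hF F (v + 1) (Multiset.replicate ((2 * r + 1) ^ 2) (μ + 1)) : ℤ) =
      r * r + r := by exact_mod_cast g1
    have en : (2 * r + 1 + 1) * (μ + 1) = 2 * r * (μ + 1) + (μ + 1) + (μ + 1) := by ring
    refine ⟨v + (μ + 2), ?_, ?_, ?_⟩
    · have key := sq_lineA h1 h2 F μ (2 * r + 1) (r + 1) (v + (μ + 2) + 1) (v + 1)
        (Multiset.replicate ((2 * r + 1) ^ 2) (μ + 1)) hμ (by omega) (by omega)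
        (by omega) (by omega) (by omega) g0
      rw [← hS] at key
      have h5 := hF_succ_le F (v + 1) (Multiset.replicate ((2 * r + 1) ^ 2) (μ + 1))
      have h5' : (hF F (v + 1 + 1) (Multiset.replicate ((2 * r + 1) ^ 2) (μ + 1)) : ℤ) ≤
          hF F (v + 1) (Multiset.replicate ((2 * r + 1) ^ 2) (μ + 1)) + (v + 3) := by
        exact_mod_cast h5
      have k1 : max (0 : ℤ) (((μ : ℤ) + 2) * ((r + 1 : ℕ) : ℤ) +
          (hF F (v + 1 + 1) (Multiset.replicate ((2 * r + 1) ^ 2) (μ + 1)) : ℤ) -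
          (hF F (v + 1) (Multiset.replicate ((2 * r + 1) ^ 2) (μ + 1)) : ℤ) -
          (((v + 1 : ℕ) : ℤ) + 2)) ≤ ((μ : ℤ) + 2) * (r + 1) := by
        refine max_le (by positivity) ?_
        push_cast
        linarith
      have t1 : 2 * (T (v + (μ + 2) + 2) : ℤ) = ((v : ℤ) + (μ + 2) + 2) * (v + (μ + 2) + 2 + 1) := by
        exact_mod_cast two_T (v + (μ + 2) + 2)
      have goal : (hF F (v + (μ + 2) + 1) (Multiset.replicate ((2 * r + 1 + 1) ^ 2) (μ + 1)) : ℤ) +
          (2 * r + 1 + 1) ^ 2 * T (μ + 1) ≤ T (v + (μ + 2) + 2) := by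
        have k3 : 2 * (T (v + (μ + 2) + 2) : ℤ) = (2 * r + 1 + 1) ^ 2 * (2 * T (μ + 1)) +
            (2 * (((μ : ℤ) + 2) * (r + 1)) + (r * r + r)) := by
          rw [t1, tm', e4]
          ring
        linarith
      exact_mod_cast goal
    · have key := sq_lineA h1 h2 F μ (2 * r + 1) r (v + (μ + 2)) v
        (Multiset.replicate ((2 * r + 1) ^ 2) (μ + 1)) hμ (by omega) (by omega)
        (by omega) hv1 rfl
        (Nat.le_zero.1 ((sq_hmono' F _ (Nat.sub_le v 1)).trans g0.le))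
      rw [← hS, g0] at key
      have k1 : max (0 : ℤ) (((μ : ℤ) + 2) * r +
          (hF F (v + 1) (Multiset.replicate ((2 * r + 1) ^ 2) (μ + 1)) : ℤ) - ((0 : ℕ) : ℤ) -
          (v + 2)) = 0 := by
        refine max_eq_left ?_
        push_cast
        nlinarith
      rw [k1] at key
      push_cast at key
      omega
    · have t1 := two_T (v + (μ + 2) + 1)
      have : (v + (μ + 2) + 1) * (v + (μ + 2) + 1 + 1) ≤
          (2 * r + 1 + 1) ^ 2 * ((μ + 1) * (μ + 1 + 1)) := by
        have e3 : ((v : ℤ) + (μ + 2) + 1) * (v + (μ + 2) + 1 + 1) ≤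
            (2 * r + 1 + 1) ^ 2 * ((μ + 1) * (μ + 1 + 1)) := by
          rw [e4]
          nlinarith
        exact_mod_cast e3
      have e7 : (2 * r + 1 + 1) ^ 2 * ((μ + 1) * (μ + 1 + 1)) =
          2 * ((2 * r + 1 + 1) ^ 2 * T (μ + 1)) := by
        rw [← tm]; ring
      omega

private theorem sq_gt0 (F : Type u) [Field F] [CharZero F] (j : ℕ) : hF F j 0 = T (j + 1) := by
  have h := (hfun_hF F j fun n hn _ => Nat.cast_ne_zero.2 (by omega)).small 0 (by simp)
  rwa [TT_zero, add_zero] at h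

theorem tSqGT (h1 : S_LineIneq.{u}) (h2 : S_Peel.{u}) : S_SqGT.{u} := by
  intro F _ _ m q
  rcases Nat.lt_or_ge m 2 with hm | hm
  · intro j
    rw [sq_TT]
    rcases Nat.eq_zero_or_pos m with rfl | hm0
    · have e : ∀ b, hF F j (Multiset.replicate b 0) = T (j + 1) := by
        intro b
        induction b with
        | zero => exact sq_gt0 F j
        | succ b ih =>
          rw [Multiset.replicate_succ,
            (hfun_hF F j fun n hn _ => Nat.cast_ne_zero.2 (by omega)).zero, ih]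
      rw [e, T_zero, Nat.mul_zero, Nat.sub_zero]
    · obtain rfl : m = 1 := by omega
      have h := sq_simple F (Trap j j) (q ^ 2)
      rw [hN_tri mProj, hN_tri mProj, sq_gt0] at h
      rw [h, T_one, Nat.mul_one]
  · obtain ⟨μ, rfl⟩ : ∃ μ, m = μ + 1 := ⟨m - 1, by omega⟩
    have hμ : 1 ≤ μ := by omega
    induction q with
    | zero =>
      intro j
      change hF F j 0 = T (j + 1) - TT 0
      rw [sq_gt0, TT_zero, Nat.sub_zero]
    | succ q ih =>
      rcases Nat.lt_or_ge q 2 with hq | hq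
      · have hR := tRep (tClu (tFour (tLine tUnit)))
        rcases Nat.eq_zero_or_pos q with rfl | hq0
        · exact hR F (μ + 1) 0
        · obtain rfl : q = 1 := by omega
          exact hR F (μ + 1) 1
      · by_cases h30 : 30 * (μ + 1) ≤ (q + 1) ^ 2
        · intro j
          rw [sq_TT]
          exact mHom F j (μ + 1) _ (by omega) h30
        · refine sq_step h1 h2 F μ q hμ hq ?_ ih
          by_contra hc
          apply h30
          have h4 : 4 * (μ + 1) + 1 ≤ q + 1 := by omega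
          have h5 : (4 * (μ + 1) + 1) ^ 2 ≤ (q + 1) ^ 2 := Nat.pow_le_pow_left h4 2
          nlinarith

end ShghK
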