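import Pool.Agent.ShghK.Spec

/-!
# ShghK, StepA: windows do not add up (pure arithmetic)
-/

namespace ShghK

/-- Lower bounds of `phi`. -/
private theorem sa_le {W x v : ℤ} (h : v ≤ 0 ∨ v ≤ x ∨ (v ≤ W ∧ v ≤ x + W)) : v ≤ phi W x := by
  unfold phi
  rcases h with h | h | ⟨h1, h2⟩
  · exact h.trans ((le_max_left _ _).trans (le_max_left _ _))
  · exact h.trans ((le_max_right _ _).trans (le_max_left _ _))
  · exact (le_min h1 h2).trans (le_max_right _ _)

/-- Upper bounds from `phi`. -/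
private theorem sa_of {W x v : ℤ} (h : v ≤ phi W x) : v ≤ 0 ∨ v ≤ x ∨ (v ≤ W ∧ v ≤ x + W) := by
  unfold phi at h
  rcases le_max_iff.1 h with h | h
  · rcases le_max_iff.1 h with h | h
    · exact Or.inl h
    · exact Or.inr (Or.inl h)
  · exact Or.inr (Or.inr (le_min_iff.1 h))

theorem tStepA : S_StepA := by
  intro W u1 x y η a ζ c hW hu0 hu hx1 hx2 hη1 hη2 ha hζ1 hζ2 hc
  have hη0 : 0 ≤ η := (le_max_left _ _).trans hη1
  have hηx : x ≤ η := (le_max_right _ _).trans hη1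
  have hζ0 : 0 ≤ ζ := (le_max_left _ _).trans hζ1
  have hζy : y ≤ ζ := (le_max_right _ _).trans hζ1
  have h1 := sa_of hη2
  have h2 := sa_of ha
  have h3 := sa_of hζ2
  have h4 := sa_of hc
  clear hη1 hη2 ha hζ1 hζ2 hc
  rcases max_choice a (ζ + x - η) with e1 | e1 <;> rcases max_choice 0 (c - ζ - u1 + η) with e2 | e2 <;>
    rw [e1, e2] <;> apply sa_le <;> omega

end ShghK
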