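import Pool.Agent.ShghK.Spec

/-!
# ShghK/StepOne: one step, one degree
-/

set_option autoImplicit false

namespace ShghK

open MvPolynomial ShghJ ShghC

universe u

private theorem stepone_phi_zero {W x : ℤ} (hW : 0 ≤ W) (h : x ≤ -W) : phi W x = 0 := by
  unfold phi
  rw [max_eq_left (by omega : x ≤ 0), max_eq_left]
  exact le_trans (min_le_right _ _) (by omega)

private theorem stepone_phi_self {W x : ℤ} (hW : 0 ≤ W) (h : W ≤ x) : phi W x = x := by
  unfold phi
  rw [max_eq_right (by omega : 0 ≤ x), max_eq_left]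
  exact le_trans (min_le_left _ _) h

/-- The number of exponents of a strip. -/
private theorem stepone_sum (d k : ℕ) (hk : k ≤ d + 1) :
    ((∑ i ∈ Finset.range (k + 1), (d + 1 - 1 * i) : ℕ) : ℤ) =
      ((k : ℤ) + 1) * (d + 1) - T k := by
  induction k with
  | zero => simp [T]
  | succ k ih =>
    rw [Finset.sum_range_succ, Nat.cast_add, ih (by omega), T_succ]
    have : ((d + 1 - 1 * (k + 1) : ℕ) : ℤ) = (d : ℤ) + 1 - (k + 1) := by
      omega
    rw [this]
    push_cast
    ring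

/-- The lower bound for the dimension of a strip. -/
private theorem stepone_low (F : Type u) [Field F] (d k : ℕ) (hk : k ≤ d + 1) (B : Multiset ℕ) :
    ((k : ℤ) + 1) * (d + 1) - T k - TT B ≤ (hN F (Sf 1 k d) B : ℤ) := by
  induction B using Multiset.induction_on with
  | empty =>
    rw [(mStA F 1 k).1 d, stepone_sum d k hk, TT_zero]
    simp
  | cons m B ih =>
    have h := (mStA F 1 k).2.1 d m B
    rw [TT_cons]
    push_cast
    have h' : (hN F (Sf 1 k d) B : ℤ) ≤ hN F (Sf 1 k d) (m ::ₘ B) + T m := by exact_mod_cast h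
    linarith

/-- `T (d + 1) = T (d - k) + (k + 1) (d + 1) - T k`. -/
private theorem stepone_T (u k : ℕ) :
    ((k : ℤ) + 1) * (((u + k : ℕ) : ℤ) + 1) - T k = T (u + k + 1) - T u := by
  have t1 : 2 * (T k : ℤ) = k * (k + 1) := by exact_mod_cast two_T k
  have t2 : 2 * (T (u + k + 1) : ℤ) = (u + k + 1) * (u + k + 1 + 1) := by
    exact_mod_cast two_T (u + k + 1)
  have t3 : 2 * (T u : ℤ) = u * (u + 1) := by exact_mod_cast two_T u
  push_cast
  nlinarith

theorem tStepOne (h1 : S_LineIneq.{u}) (h2 : S_StepA) : S_StepOne.{u} := by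
  intro F _ _ W A B u d hW hu h4 hx1 hx2 hPI hd hB
  obtain ⟨v, rfl⟩ : ∃ v, u = v + 1 := ⟨u - 1, by omega⟩
  have T1 : (T (v + 1 + 1) : ℤ) = T (v + 1) + (v + 2) := by
    rw [T_succ (v + 1)]; push_cast; ring
  have T2 : (T (v + 1 + 2) : ℤ) = T (v + 1 + 1) + (v + 3) := by
    rw [show v + 1 + 2 = (v + 1 + 1) + 1 from rfl, T_succ (v + 1 + 1)]; push_cast; ring
  have T3 : (T (v + 1) : ℤ) = T v + (v + 1) := by
    rw [T_succ v]; push_cast; ring
  push_cast at h4 
  -- the line
  have hA0 : hF F v A = 0 := by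
    have h := hPI v
    rw [stepone_phi_zero hW (by omega)] at h
    omega
  have hA2 : (hF F (v + 1 + 1) A : ℤ) = T (v + 1 + 2) - TT A := by
    have h := hPI (v + 1 + 1)
    rw [stepone_phi_self hW hx2] at h
    have h' := (hfun_hF F (v + 1 + 1) fun n hn _ => Nat.cast_ne_zero.2 (by omega)).chi_le A
    have h'' : (T (v + 1 + 1 + 1) : ℤ) ≤ hF F (v + 1 + 1) A + TT A := by exact_mod_cast h'
    exact le_antisymm h (by
      have : (T (v + 1 + 2) : ℤ) = T (v + 1 + 1 + 1) := rfl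
      linarith)
  have hA1 : (T (v + 1 + 1) : ℤ) - TT A ≤ hF F (v + 1) A := by
    have h' := (hfun_hF F (v + 1) fun n hn _ => Nat.cast_ne_zero.2 (by omega)).chi_le A
    have h'' : (T (v + 1 + 1) : ℤ) ≤ hF F (v + 1) A + TT A := by exact_mod_cast h'
    linarith
  have hA1' := hPI (v + 1)
  -- the strips
  obtain ⟨j, rfl⟩ : ∃ j, d = v + 1 + 2 + j := ⟨d - (v + 1 + 2), by omega⟩
  have k0 : v + 1 + 2 + j - (v + 1) - 2 = j := by omega
  have k1 : v + 1 + 2 + j - (v + 1) - 1 = j + 1 := by omega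
  have k2 : v + 1 + 2 + j - (v + 1) = j + 2 := by omega
  have b0 := hB j (by omega) (by omega)
  have b1 := hB (j + 1) (by omega) (by omega)
  have b2 := hB (j + 2) (by omega) (by omega)
  have l1 := stepone_low F (v + 1 + 2 + j) (j + 1) (by omega) B
  have q0 := stepone_T (v + 1 + 2) j
  have q1 := stepone_T (v + 1 + 1) (j + 1)
  have q2 := stepone_T (v + 1) (j + 2)
  rw [show v + 1 + 1 + (j + 1) = v + 1 + 2 + j by omega] at q1
  rw [show v + 1 + (j + 2) = v + 1 + 2 + j by omega] at q2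
  rw [q0] at b0
  rw [q1] at b1 l1
  rw [q2] at b2
  have hg := h1 F (v + 1 + 2 + j) (v + 1) A B (by omega) (by omega) (by
    rw [Nat.add_sub_cancel]; exact hA0)
  rw [k0, k1, k2, hA2] at hg
  have e1 : (v + 1 + 1 : ℕ) = v + 2 := rfl
  have hs := h2 W ((v : ℤ) + 2) (T (v + 1 + 1) - TT A)
    (T (v + 1 + 2 + j + 1) - T (v + 1 + 1) - TT B) (hF F (v + 1) A)
    (hN F (Sf 1 j (v + 1 + 2 + j)) B) (hN F (Sf 1 (j + 1) (v + 1 + 2 + j)) B)
    (hN F (Sf 1 (j + 2) (v + 1 + 2 + j)) B) hW (by omega) (by omega) (by omega) (by omega)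
    (max_le (by omega) hA1) hA1' ?_ (max_le (by omega) l1) b1 ?_
  · rw [TT_add]
    push_cast at hg ⊢
    have e2 : (T (v + 1 + 2 + j + 1) : ℤ) - (TT A + TT B) =
        T (v + 1 + 1) - TT A + (T (v + 1 + 2 + j + 1) - T (v + 1 + 1) - TT B) := by ring
    rw [e2]
    refine le_trans hg (le_trans (le_of_eq ?_) hs)
    congr 1
    congr 1
    rw [T2]
    ring
  · refine le_trans b0 (le_of_eq ?_)
    congr 1
    rw [T2]
    ring
  · refine le_trans b2 (le_of_eq ?_)
    congr 1
    rw [T1]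
    ring

end ShghK
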