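import Pool.Agent.ShghK.Spec

/-!
# ShghK, StepPI: windows in all degrees
-/

namespace ShghK

open MvPolynomial ShghJ ShghC

universe u

private theorem hF_mono (F : Type u) [Field F] [CharZero F] (A : Multiset ℕ) (e k : ℕ) :
    hF F e A ≤ hF F (e + k) A := by
  induction k with
  | zero => exact le_rfl
  | succ k ih =>
    have h := (mStB F 1 (e + k + 1)).1 (e + k) A
    rw [Sf_one_eq_Trap (Nat.le_succ (e + k)), Sf_one_eq_Trap (le_refl (e + k + 1)), hN_tri mProj,
      hN_tri mProj] at h
    exact ih.trans h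

private theorem chi_low (F : Type u) [Field F] [CharZero F] (A : Multiset ℕ) (d : ℕ) :
    T (d + 1) ≤ hF F d A + TT A := by
  have h2 := (hfun_hF F d fun n hn _ => Nat.cast_ne_zero.2 (by omega)).chi_le A
  omega

private theorem le_phi (W x : ℤ) : x ≤ phi W x := by
  unfold phi
  omega

private theorem phi_nonneg (W x : ℤ) : 0 ≤ phi W x := by
  unfold phi
  omega

theorem tStepPI (h1 : S_StepOne.{u}) : S_StepPI.{u} := by
  intro F _ _ W A B u d1 hW hu hWu hA1 hA2 hd1 hD1 hD2 hPI hstrip
  have hone : ∀ d : ℕ, d1 ≤ d + 2 → d ≤ d1 →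
      (hF F d (A + B) : ℤ) ≤ phi W ((T (d + 1) : ℤ) - TT (A + B)) := fun d h2 h3 =>
    h1 F W A B u d hW hu hWu hA1 hA2 hPI (by omega) fun k h4 h5 => hstrip d k h2 h3 h4 h5
  intro e
  rcases lt_trichotomy (e + 1) d1 with h | h | h
  · -- small degrees
    have h2 := hone (d1 - 2) (by omega) (by omega)
    have h3 : T d1 = T (d1 - 1) + d1 := by
      have := T_succ (d1 - 1)
      rw [show d1 - 1 + 1 = d1 by omega] at this
      exact this
    rw [show d1 - 2 + 1 = d1 - 1 by omega] at h2
    have h4 : phi W ((T (d1 - 1) : ℤ) - TT (A + B)) = 0 := by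
      unfold phi
      omega
    have h5 := hF_mono F (A + B) e (d1 - 2 - e)
    rw [show e + (d1 - 2 - e) = d1 - 2 by omega] at h5
    have h6 := phi_nonneg W ((T (e + 1) : ℤ) - TT (A + B))
    omega
  · exact hone e (by omega) (by omega)
  · -- large degrees
    have h2 := hone d1 (by omega) le_rfl
    have h3 : phi W ((T (d1 + 1) : ℤ) - TT (A + B)) = (T (d1 + 1) : ℤ) - TT (A + B) := by
      unfold phi
      omega
    have h4 := chi_low F (A + B) d1
    have h5 := hF_exact_mono F (A + B) d1 (e - d1) (by omega)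
    rw [show d1 + (e - d1) = e by omega] at h5
    have h6 := le_phi W ((T (e + 1) : ℤ) - TT (A + B))
    omega

end ShghK
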