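import Pool.Agent.ShghK.Spec

/-!
# ShghK, StripG0: the strip function for `n = 0`
-/

set_option autoImplicit false

namespace ShghK

open MvPolynomial ShghJ ShghC

universe u

private theorem sg0_c1 {τ e : ℕ} (i k : ℕ) (h : ex i (k + 1) ∈ Sf 1 τ e) :
    ex (i + 1) k ∈ Sf 1 τ e := by
  rw [mem_Sf, ex_zero, ex_one] at h ⊢
  exact ⟨by omega, by omega⟩

private theorem sg0_c2 {τ e : ℕ} (i k : ℕ) (h : ex i (k + 1) ∈ Sf 1 τ e) :
    ex i k ∈ Sf 1 τ e := by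
  rw [mem_Sf, ex_zero, ex_one] at h ⊢
  exact ⟨by omega, by omega⟩

private theorem sg0_deg {K : Type u} [Field K] {τ e s : ℕ}
    {μ : Fin s → ℕ} {P : Fin s → Fin 2 → K} {f : MvPolynomial (Fin 2) K}
    (hf : f ∈ LN (Sf 0 τ e) μ P) : f.totalDegree ≤ e + τ := by
  rw [ShghE.tf_totalDegree_le]
  intro x hx
  rw [mem_support_iff] at hx
  have h := (mem_LN.1 hf).1 x hx
  rw [mem_Sf] at h
  rw [deg_eq]
  omega

private theorem sg0_eq (h1 : S_ElmA.{u}) (h2 : S_ElmB.{u}) (F : Type u) [Field F] [CharZero F]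
    (τ e : ℕ) (B : Multiset ℕ) :
    hN F (Sf 0 τ e) B = hN F (Sf 1 τ (e + τ)) (τ ::ₘ B) := by
  apply le_antisymm
  · have h := h2 F τ 0 e B (Nat.zero_le _)
    rw [(mMacN F _ B 0).1, Nat.sub_zero] at h
    exact h
  · have h := (h1 F τ τ (e + τ) B le_rfl).1 (Nat.le_add_left _ _)
    rw [Nat.sub_self, Nat.add_sub_cancel, (mMacN F _ B 0).1] at h
    exact h

theorem tStripG0 (h1 : S_ElmA.{u}) (h2 : S_ElmB.{u}) : S_StripG0.{u} := by
  intro F _ _ τ
  refine ⟨fun e => ⟨?_, ?_, ?_, ?_, ?_, ?_⟩, ?_, ?_, ?_, ?_⟩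
  · exact fun S => (mMacN F _ S 0).1
  · exact fun S j => (mMacN F _ S j).2.1
  · exact fun S j => (mMacN F _ S j).2.2.1
  · exact fun S j => (mMacN F _ S j).2.2.2
  · intro S
    have h := tBase (UF F) 1 (e + τ) (fun _ => e + τ + 1) (fun i => up F i)
      (fun i j hij => absurd (Subsingleton.elim i j) hij) (by simp)
    have h0 : Module.finrank (UF F)
        (ShghT.LS (e + τ) (fun _ : Fin 1 => e + τ + 1) (fun i => up F i)) = 0 := by
      rw [Fin.sum_univ_one] at h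
      have e1 : e + τ + 1 + 1 = e + τ + 2 := rfl
      rw [e1] at h
      omega
    have hle : fil (LN (Sf 0 τ e) (fun i : Fin S.toList.length => S.toList.get i)
        (fun i => up F (i + 1))) (up F 0) (e + τ + 1) ≤
        ShghT.LS (e + τ) (fun _ : Fin 1 => e + τ + 1) (fun i => up F i) := by
      intro f hf
      refine ShghT.mem_LS.2 ⟨sg0_deg hf.1, fun i => ?_⟩
      have hi : i = 0 := Subsingleton.elim _ _
      subst hi
      exact hf.2
    show hN F (Sf 0 τ e) ((e + τ + 1) ::ₘ S) = 0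
    rw [(mNCons F _ S).2]
    have := Submodule.finrank_mono hle
    omega
  · intro S m w h
    have hs : ∀ j : ℕ, hN F (Sf 0 τ e) (j ::ₘ S) = hN F (Sf 1 τ (e + τ)) (j ::ₘ τ ::ₘ S) := by
      intro j
      rw [sg0_eq h1 h2, Multiset.cons_swap]
    have h' : 1 ≤ hN F (Sf 1 τ (e + τ)) (m ::ₘ w ::ₘ τ ::ₘ S) := by
      have h3 : hN F (Sf 0 τ e) (m ::ₘ w ::ₘ S) =
          hN F (Sf 1 τ (e + τ)) (m ::ₘ w ::ₘ τ ::ₘ S) := by
        rw [sg0_eq h1 h2, Multiset.cons_swap τ m, Multiset.cons_swap τ w]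
      rw [← h3]
      exact h
    obtain ⟨j, hj1, hj2, hj3, hj4⟩ := mCollN F (Sf 1 τ (e + τ)) (fun i k => sg0_c1 i k)
      (fun i k => sg0_c2 i k) (τ ::ₘ S) m w h'
    refine ⟨j, hj1, hj2, ?_, ?_⟩
    · show hN F (Sf 0 τ e) ((j + 1) ::ₘ S) + 1 ≤ hN F (Sf 0 τ e) (j ::ₘ S)
      rw [hs, hs]
      exact hj3
    · show m + w + 1 + hN F (Sf 0 τ e) ((j + 1) ::ₘ S) ≤ j + hN F (Sf 0 τ e) (j ::ₘ S)
      rw [hs, hs]
      exact hj4
  · exact (mStA F 0 τ).1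
  · exact (mStB F 0 τ).1
  · exact fun e m B hm => (mFib1 F 0 τ m B hm).1 e
  · exact fun m B hm => (mFib1 F 0 τ m B hm).2

end ShghK
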