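import Pool.Agent.ShghK.Spec

/-!
# ShghK, TwoRow: linear algebra with regions
-/

namespace ShghK

open MvPolynomial ShghJ ShghC

universe u

private theorem mem_S2 {τ δ r1 r2 : ℕ} {e : Fin 2 →₀ ℕ} (h : e ∈ S2 τ δ r1 r2) :
    (e 1 < τ ∧ e 0 + e 1 ≤ δ) ∨ (e 1 = τ ∧ e 0 < r1) ∨ (e 1 = τ + 1 ∧ e 0 < r2) := by
  unfold S2 at h
  rw [mem_boxSet] at h
  exact h.2.2

theorem tTwoRow : S_TwoRow.{u} := by
  intro F _ τ δ r1 r2 B hτ hr
  unfold hN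
  set μ : Fin B.toList.length → ℕ := fun i => B.toList.get i
  set P : Fin B.toList.length → Fin 2 → UF F := fun i => up F i
  have hfin := fun N => tNClo.1 (UF F) N B.toList.length μ P
  have := hfin (S2 τ δ r1 r2)
  have := hfin (Sf 1 τ δ)
  have := hfin (St 1 τ δ r1)
  have := hfin (St 1 (τ + 1) δ r2)
  have h1 : LN (S2 τ δ r1 r2) μ P ⊓ LN (Sf 1 τ δ) μ P ≤ LN (St 1 τ δ r1) μ P := by
    rintro f ⟨hf1, hf2⟩
    refine mem_LN.2 ⟨fun e he => ?_, (mem_LN.1 hf1).2⟩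
    have g1 := mem_S2 ((mem_LN.1 hf1).1 e he)
    have g2 := mem_Sf.1 ((mem_LN.1 hf2).1 e he)
    rw [mem_St]
    omega
  have h2 : LN (S2 τ δ r1 r2) μ P ⊔ LN (Sf 1 τ δ) μ P ≤ LN (St 1 (τ + 1) δ r2) μ P := by
    refine sup_le ?_ ?_
    · intro f hf
      refine mem_LN.2 ⟨fun e he => ?_, (mem_LN.1 hf).2⟩
      have g1 := mem_S2 ((mem_LN.1 hf).1 e he)
      rw [mem_St]
      omega
    · intro f hf
      refine mem_LN.2 ⟨fun e he => ?_, (mem_LN.1 hf).2⟩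
      have g1 := mem_Sf.1 ((mem_LN.1 hf).1 e he)
      rw [mem_St]
      omega
  have h3 := Submodule.finrank_sup_add_finrank_inf_eq (LN (S2 τ δ r1 r2) μ P) (LN (Sf 1 τ δ) μ P)
  have h4 := Submodule.finrank_mono h1
  have h5 := Submodule.finrank_mono h2
  omega

end ShghK
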