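import Pool.Agent.ShghK.Num
import Pool.Agent.ShghK.ElmAB
import Pool.Agent.ShghK.Flip
import Pool.Agent.ShghK.GlueL
import Pool.Agent.ShghK.KapPath
import Pool.Agent.ShghK.LineIneq
import Pool.Agent.ShghK.LineWin
import Pool.Agent.ShghK.Peel
import Pool.Agent.ShghK.StepA
import Pool.Agent.ShghK.StepOne
import Pool.Agent.ShghK.StepPI
import Pool.Agent.ShghK.SqGT
import Pool.Agent.ShghK.TwoRow
import Pool.Agent.ShghK.StripG0
import Pool.Agent.ShghK.BoxWin
import Pool.Agent.ShghK.Chain
import Pool.Agent.ShghK.Hom23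

/-!
# ShghK: the assembly. Homogeneous systems with `s ^ 3 ≥ 10 ^ 11 m ^ 2`
-/

namespace ShghK

universe u

theorem mElmA : S_ElmA.{u} := tElmA

theorem mElmB : S_ElmB.{u} := tElmB

theorem mFlip : S_Flip.{u} := tFlip

theorem mPeel : S_Peel.{u} := tPeel mElmA mElmB

theorem mLineIneq : S_LineIneq.{u} := tLineIneq tGlueL tTwoRow

theorem mStepPI : S_StepPI.{u} := tStepPI (tStepOne mLineIneq tStepA)

/-- Square numbers of equal points, every degree. -/
theorem mSqGT : S_SqGT.{u} := tSqGT mLineIneq mPeel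

theorem mStripG0 : S_StripG0.{u} := tStripG0 mElmA mElmB

theorem mBoxWin : S_BoxWin.{u} := tBoxWin mFlip mStripG0

theorem mLineWin : S_LineWin.{u} := tLineWin mPeel mBoxWin

theorem mChain : S_Chain.{u} := tChain mStepPI mLineWin tNum

/-- THE THEOREM: homogeneous systems with `s ^ 3 ≥ 10 ^ 11 m ^ 2`, every degree. -/
theorem mHom23 : S_Hom23.{u} := tHom23 tPath mChain mSqGT tKap

end ShghK
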