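import Pool.Agent.ShghK.Spec

/-!
# ShghK, Num: the numbers of one step (proof of `S_Num`)

`N = u + 1`, `E = d1`, `J = w + 20 + υ`, `b = 2 J + 1`, `A = 2 TA`, `k = m + κ`.
-/

namespace ShghK

open ShghJ ShghC

/-- The elementary size estimates. -/
private theorem num_size {m Q w z : ℤ} (hm : 1 ≤ m) (hQ : 2000 ≤ Q) (hw : Q ≤ w) (hz : 0 ≤ z)
    (h30 : w ^ 2 + z ≤ 30 * m) : 200 * w ≤ 3 * m ∧ w ^ 2 ≤ 30 * m := by
  have h1 : w ^ 2 ≤ 30 * m := by linarith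
  refine ⟨?_, h1⟩
  nlinarith

/-- Upper bound of `N`. -/
private theorem num_Nle {m Q w z A W N : ℤ} (hm : 1 ≤ m) (hQ : 2000 ≤ Q) (hw : Q ≤ w)
    (hz : 0 ≤ z) (hz5 : z ≤ 5 * w) (hW : 8 * W ≤ Q * m)
    (hA : A ≤ (w ^ 2 + z) * (m * (m + 1)) + 2 * Q * m)
    (hN0 : 0 ≤ N) (hN : N * (N + 1) ≤ A + 2 * W) : 2 * N ≤ (2 * w + 5) * m + 2 * w := by
  by_contra hlt
  push Not at hlt
  have hX : 0 ≤ (2 * w + 5) * m + 2 * w := by
    have : 0 ≤ (2 * w + 5) * m := mul_nonneg (by linarith) (by linarith)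
    linarith
  have h1 : ((2 * w + 5) * m + 2 * w) * ((2 * w + 5) * m + 2 * w) ≤ (2 * N) * (2 * N + 2) :=
    mul_le_mul (by linarith) (by linarith) hX (by linarith)
  have h2 : (w ^ 2 + z) * (m * (m + 1)) ≤ (w ^ 2 + 5 * w) * (m * (m + 1)) := by
    apply mul_le_mul_of_nonneg_right (by linarith)
    positivity
  have h3 : Q * m ≤ w * m := mul_le_mul_of_nonneg_right hw (by linarith)
  have h4 : 4 * (N * (N + 1)) ≤ 4 * ((w ^ 2 + 5 * w) * (m * (m + 1))) + 9 * (w * m) := by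
    nlinarith
  have h5 : 0 < 25 * m ^ 2 + 4 * (w ^ 2 * m) - 9 * (w * m) := by
    have : 9 * (w * m) ≤ 4 * (w ^ 2 * m) := by
      have : 9 * w ≤ 4 * w ^ 2 := by nlinarith
      nlinarith
    have : 0 < m ^ 2 := by positivity
    linarith
  nlinarith

/-- Lower bound of `N`. -/
private theorem num_leN {m Q w z A W N : ℤ} (hm : 1 ≤ m) (hQ : 2000 ≤ Q) (hw : Q ≤ w)
    (hz : 0 ≤ z) (hW : 0 ≤ W)
    (hA : (w ^ 2 + z) * (m * (m + 1)) ≤ A + 2 * Q * m)
    (hN0 : 0 ≤ N) (hN : A + 2 * W ≤ (N + 1) * (N + 2)) : w * m ≤ N + 1 := by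
  by_contra hlt
  push Not at hlt
  have h1 : (N + 1) * (N + 2) ≤ (w * m - 1) * (w * m) := by
    apply mul_le_mul (by linarith) (by linarith) (by linarith)
    nlinarith
  have h2 : w ^ 2 * (m * (m + 1)) ≤ (w ^ 2 + z) * (m * (m + 1)) := by
    apply mul_le_mul_of_nonneg_right (by linarith)
    positivity
  have h3 : Q * m ≤ w * m := mul_le_mul_of_nonneg_right hw (by linarith)
  have h4 : 2 * (w * m) ≤ w ^ 2 * m := by
    have : 2 * w ≤ w ^ 2 := by nlinarith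
    nlinarith
  have h5 : 0 < w * m := mul_pos (by linarith) (by linarith)
  nlinarith

/-- Upper bound of `E`. -/
private theorem num_Ele {m Q w z v A W E : ℤ} (hm : 1 ≤ m) (hQ : 2000 ≤ Q) (hw : Q ≤ w)
    (hz : 0 ≤ z) (hz5 : z ≤ 5 * w) (hv : v ≤ 1) (hW : 8 * W ≤ Q * m)
    (hwm : 200 * w ≤ 3 * m) (hw2 : w ^ 2 ≤ 30 * m)
    (hA : A ≤ (w ^ 2 + z) * (m * (m + 1)) + 2 * Q * m)
    (hE0 : 0 ≤ E) (hE : E * (E + 1) ≤ A + (2 * (w + 20 + v) + 1) * (m * (m + 1)) + 2 * W) :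
    E ≤ (w + 4) * m := by
  by_contra hlt
  push Not at hlt
  have hX : 0 ≤ (w + 4) * m := mul_nonneg (by linarith) (by linarith)
  have h1 : ((w + 4) * m) * ((w + 4) * m) ≤ E * (E + 1) :=
    mul_le_mul (by linarith) (by linarith) hX (by linarith)
  have h2 : (w ^ 2 + z) * (m * (m + 1)) ≤ (w ^ 2 + 5 * w) * (m * (m + 1)) := by
    apply mul_le_mul_of_nonneg_right (by linarith)
    positivity
  have h2' : (2 * (w + 20 + v) + 1) * (m * (m + 1)) ≤ (2 * w + 43) * (m * (m + 1)) := by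
    apply mul_le_mul_of_nonneg_right (by linarith)
    positivity
  have h3 : Q * m ≤ w * m := mul_le_mul_of_nonneg_right hw (by linarith)
  have h4 : 4 * (E * (E + 1)) ≤ 4 * ((w ^ 2 + 7 * w + 43) * (m * (m + 1))) + 9 * (w * m) := by
    nlinarith
  -- (w^2+8w+16) m^2 - (w^2+7w+43)(m^2+m) - 9/4 w m > 0
  have h5 : 4 * (w ^ 2 + 7 * w + 43) * m + 9 * (w * m) < 4 * ((w - 27) * m ^ 2) := by
    have h6 : 4 * (w ^ 2 + 7 * w + 43) + 9 * w < 4 * ((w - 27) * m) := by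
      have : 1973 * m ≤ (w - 27) * m := by
        apply mul_le_mul_of_nonneg_right (by linarith) (by linarith)
      nlinarith
    nlinarith
  nlinarith

/-- Bounds of `2 y`. -/
private theorem num_y {m w v A W N E d : ℤ} (hd1 : E ≤ d + 2) (hd2 : d ≤ E) (hE0 : 2 ≤ E)
    (hN1 : N * (N + 1) < A + 2 * W) (hN2 : A + 2 * W ≤ (N + 1) * (N + 2))
    (hE1 : E * (E + 1) < A + (2 * (w + 20 + v) + 1) * (m * (m + 1)) + 2 * W)
    (hE2 : A + (2 * (w + 20 + v) + 1) * (m * (m + 1)) + 2 * W ≤ (E + 1) * (E + 2)) :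
    (d + 1) * (d + 2) - N * (N + 1) - (2 * (w + 20 + v) + 1) * (m * (m + 1)) ≤ 2 * E + 2 * N + 3 ∧
    - (4 * E + 1) ≤
      (d + 1) * (d + 2) - N * (N + 1) - (2 * (w + 20 + v) + 1) * (m * (m + 1)) := by
  have h1 : (d + 1) * (d + 2) ≤ (E + 1) * (E + 2) :=
    mul_le_mul (by linarith) (by linarith) (by linarith) (by linarith)
  have h2 : (E - 1) * E ≤ (d + 1) * (d + 2) :=
    mul_le_mul (by linarith) (by linarith) (by linarith) (by linarith)
  constructor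
  · nlinarith
  · nlinarith

/-- Bounds of `μ = d - N - m`. -/
private theorem num_mu {m w v N E d : ℤ} (hm : 1 ≤ m) (hw : 2000 ≤ w)
    (hv0 : 0 ≤ v) (hv : v ≤ 1) (hwm : 200 * w ≤ 3 * m)
    (hN1 : 2 * N ≤ (2 * w + 5) * m + 2 * w) (hN2 : w * m ≤ N + 1) (hN0 : 0 ≤ N) (hd0 : 0 ≤ d)
    (hE : E ≤ (w + 4) * m)
    (hY1 : (d + 1) * (d + 2) - N * (N + 1) - (2 * (w + 20 + v) + 1) * (m * (m + 1)) ≤
      2 * E + 2 * N + 3)
    (hY2 : - (4 * E + 1) ≤
      (d + 1) * (d + 2) - N * (N + 1) - (2 * (w + 20 + v) + 1) * (m * (m + 1))) :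
    1 ≤ d - N - m ∧ 172 * m ≤ 10 * ((d - N - m) * w) ∧ 100 * ((d - N - m) * w) ≤ 2104 * m := by
  obtain ⟨μ, hμ⟩ : ∃ μ, μ = d - N - m := ⟨_, rfl⟩
  obtain ⟨Y, hY⟩ : ∃ Y, Y = (d + 1) * (d + 2) - N * (N + 1) -
    (2 * (w + 20 + v) + 1) * (m * (m + 1)) := ⟨_, rfl⟩
  rw [← hμ]
  rw [← hY] at hY1 hY2
  have key : μ * (2 * N + 2 * m + μ + 3) = 2 * (m + 1) * ((w + 20 + v) * m - N - 1) + Y := by
    rw [hY, hμ]
    ring
  have hm0 : (133333 : ℤ) ≤ m := by linarith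
  have hwmm : 200 * (w * m) ≤ 3 * m ^ 2 := by nlinarith
  have hY3 : Y ≤ 5 * (w * m) := by nlinarith
  have hY4 : - (5 * (w * m)) ≤ Y := by nlinarith
  have hvm : 0 ≤ v * m := mul_nonneg hv0 (by linarith)
  have hvm' : v * m ≤ m := by nlinarith
  -- the right side
  have hJ1 : 174 * m ≤ 10 * ((w + 20 + v) * m - N - 1) := by nlinarith
  have hJ2 : (w + 20 + v) * m - N - 1 ≤ 21 * m := by nlinarith
  have hR1 : 347 * m ^ 2 ≤ 10 * (2 * (m + 1) * ((w + 20 + v) * m - N - 1) + Y) := by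
    have h1 : (m + 1) * (174 * m) ≤ (m + 1) * (10 * ((w + 20 + v) * m - N - 1)) :=
      mul_le_mul_of_nonneg_left hJ1 (by linarith)
    nlinarith
  have hR2 : 100 * (2 * (m + 1) * ((w + 20 + v) * m - N - 1) + Y) ≤ 4208 * m ^ 2 := by
    have h1 : (m + 1) * ((w + 20 + v) * m - N - 1) ≤ (m + 1) * (21 * m) :=
      mul_le_mul_of_nonneg_left hJ2 (by linarith)
    have h2 : 42 * m * 100 ≤ m ^ 2 := by nlinarith
    nlinarith
  rw [← key] at hR1 hR2
  have hpos : 0 < 2 * N + 2 * m + μ + 3 := by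
    rw [hμ]
    linarith
  have hμ1 : 1 ≤ μ := by
    by_contra hlt
    have h1 : μ * (2 * N + 2 * m + μ + 3) ≤ 0 :=
      mul_nonpos_of_nonpos_of_nonneg (by linarith [not_le.1 hlt]) hpos.le
    nlinarith
  refine ⟨hμ1, ?_, ?_⟩
  swap
  · -- upper bound
    have h1 : μ * (2 * (w * m)) ≤ μ * (2 * N + 2 * m + μ + 3) :=
      mul_le_mul_of_nonneg_left (by linarith) (by linarith)
    have h2 : m * (100 * (μ * w)) ≤ m * (2104 * m) := by nlinarith
    exact le_of_mul_le_mul_left h2 (by linarith)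
  · -- lower bound
    have h1 : μ * (2 * (w * m)) ≤ μ * (2 * N + 2 * m + μ + 3) :=
      mul_le_mul_of_nonneg_left (by linarith) (by linarith)
    have h2 : m * (100 * (μ * w)) ≤ m * (2104 * m) := by nlinarith
    have h3 : 100 * (μ * w) ≤ 2104 * m := le_of_mul_le_mul_left h2 (by linarith)
    have h4 : 100 * μ ≤ 2 * m := by nlinarith
    have h5 : 100 * (2 * N + 2 * m + μ + 3) ≤ 201 * (w * m) := by nlinarith
    have h6 : μ * (100 * (2 * N + 2 * m + μ + 3)) ≤ μ * (201 * (w * m)) :=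
      mul_le_mul_of_nonneg_left h5 (by linarith)
    have h7 : m * (172 * m) ≤ m * (10 * (μ * w)) := by nlinarith
    exact le_of_mul_le_mul_left h7 (by linarith)

/-- The conclusions for one strip `k = m + κ`. -/
private theorem num_strip {m Q w v W N E d κ L : ℤ} (hm : 1 ≤ m) (hQ : 2000 ≤ Q) (hw : Q ≤ w)
    (hv0 : 0 ≤ v) (hv : v ≤ 1) (hwm : 200 * w ≤ 3 * m) (hw2 : w ^ 2 ≤ 30 * m)
    (hmQ : 180000 * m ≤ Q ^ 3) (hW : Q * m ≤ 8 * W + 7)
    (hN1 : 2 * N ≤ (2 * w + 5) * m + 2 * w) (hN0 : 0 ≤ N) (hE : E ≤ (w + 4) * m)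
    (hκ1 : d - N - m ≤ κ + 1) (hκ2 : κ ≤ d - N - m + 1)
    (hμ1 : 172 * m ≤ 10 * ((d - N - m) * w)) (hμ2 : 100 * ((d - N - m) * w) ≤ 2104 * m)
    (hL : L + (w + 20 + v + 1) * m = d + (w + 20 + v) * κ)
    (hY1 : 2 * (m + κ + 1) * (d + 1) - (m + κ) * (m + κ + 1) -
      (2 * (w + 20 + v) + 1) * (m * (m + 1)) ≤ 2 * E + 4 * N + 3)
    (hY2 : - (4 * E + 2 * N + 3) ≤ 2 * (m + κ + 1) * (d + 1) - (m + κ) * (m + κ + 1) -
      (2 * (w + 20 + v) + 1) * (m * (m + 1))) :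
    1 ≤ κ ∧ 50 * κ ≤ m ∧ 3 * κ ≤ L ∧ κ * (2 * L + 7 * κ) ≤ 2 * W := by
  have hm0 : (133333 : ℤ) ≤ m := by linarith
  have hw0 : 0 ≤ w := by linarith
  have hκw1 : 171 * m ≤ 10 * (κ * w) := by
    have := mul_le_mul_of_nonneg_right hκ1 hw0
    linarith
  have hκw2 : 100 * (κ * w) ≤ 2110 * m := by
    have := mul_le_mul_of_nonneg_right hκ2 hw0
    linarith
  have hκ0 : 1 ≤ κ := by
    by_contra hlt
    have : κ * w ≤ 0 := mul_nonpos_of_nonpos_of_nonneg (by linarith [not_le.1 hlt]) (by linarith)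
    linarith
  have hκm : 50 * κ ≤ m := by
    have h1 : κ * 2000 ≤ κ * w := mul_le_mul_of_nonneg_left (hQ.trans hw) (by linarith)
    linarith
  -- `κ` compared with `w`
  have hκw3 : 57 * w ≤ 100 * κ := by
    have h1 : w * (57 * w) ≤ w * (100 * κ) := by linarith
    exact le_of_mul_le_mul_left h1 (by linarith)
  -- the identity
  have key : 2 * (m + κ + 1) * (L + 1) = (2 * (w + 20 + v) + 1) * (κ * (κ + 1)) +
      (2 * (m + κ + 1) * (d + 1) - (m + κ) * (m + κ + 1) -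
      (2 * (w + 20 + v) + 1) * (m * (m + 1))) := by
    have : L = d + (w + 20 + v) * κ - (w + 20 + v + 1) * m := by linarith
    rw [this]
    ring
  obtain ⟨X, hX⟩ : ∃ X, X = 2 * (m + κ + 1) * (d + 1) - (m + κ) * (m + κ + 1) -
      (2 * (w + 20 + v) + 1) * (m * (m + 1)) := ⟨_, rfl⟩
  rw [← hX] at key hY1 hY2
  have hwm' : 2000 * m ≤ w * m := mul_le_mul_of_nonneg_right (hQ.trans hw) (by linarith)
  have hX1 : X ≤ 7 * (w * m) := by linarith
  have hX2 : - (7 * (w * m)) ≤ X := by linarith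
  have hkk : 0 < κ * (κ + 1) := by positivity
  refine ⟨hκ0, hκm, ?_, ?_⟩
  · -- the lower bound of `L`
    by_contra hlt
    push Not at hlt
    have h1 : 2 * (m + κ + 1) * (L + 1) ≤ 2 * (m + κ + 1) * (3 * κ) :=
      mul_le_mul_of_nonneg_left (by linarith) (by linarith)
    have h2 : 2 * w * (κ * κ) ≤ (2 * (w + 20 + v) + 1) * (κ * (κ + 1)) := by
      apply mul_le_mul (by linarith) (by linarith) (by positivity) (by linarith)
    have h3 : κ * (171 * m) ≤ κ * (10 * (κ * w)) :=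
      mul_le_mul_of_nonneg_left hκw1 (by linarith)
    have h4 : (50 * (m + κ + 1)) * κ ≤ (52 * m) * κ :=
      mul_le_mul_of_nonneg_right (by linarith) (by linarith)
    have h4' : 0 ≤ m * κ := by positivity
    -- 34.2 m κ - 7 w m ≤ 6.24 m κ
    have h5 : m * (27 * κ) ≤ m * (7 * w) := by linarith
    have h6 : 27 * κ ≤ 7 * w := le_of_mul_le_mul_left h5 (by linarith)
    linarith
  · -- the window
    have hL0 : 2 * m * L ≤ 2 * (m + κ + 1) * (L + 1) ∨ L < 0 := by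
      by_cases h : 0 ≤ L
      · left
        have h1 : m * L ≤ (m + κ + 1) * (L + 1) :=
          mul_le_mul (by linarith) (by linarith) h (by linarith)
        linarith
      · right
        exact not_le.1 h
    have h2 : 100 * ((2 * (w + 20 + v) + 1) * (κ * (κ + 1))) ≤ 204 * (w * (κ * κ)) := by
      have h3 : 1000 * (κ * (κ + 1)) ≤ 1001 * (κ * κ) := by
        have h0 : 1000 ≤ κ := by linarith
        have : 1000 * κ ≤ κ * κ := mul_le_mul_of_nonneg_right h0 (by linarith)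
        linarith
      have h4 : 100 * (2 * (w + 20 + v) + 1) ≤ 203 * w := by linarith
      have h5 : (100 * (2 * (w + 20 + v) + 1)) * (1000 * (κ * (κ + 1))) ≤
          (203 * w) * (1001 * (κ * κ)) :=
        mul_le_mul h4 h3 (by linarith) (by linarith)
      have h6 : 0 ≤ w * (κ * κ) := by positivity
      linarith
    have h7 : 50 * (2 * L) ≤ 2160 * κ + 350 * w := by
      rcases hL0 with h | h
      · have h8 : 100 * (2 * m * L) ≤ 204 * (w * (κ * κ)) + 700 * (w * m) := by linarith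
        have h9 : κ * (100 * (κ * w)) ≤ κ * (2110 * m) :=
          mul_le_mul_of_nonneg_left hκw2 (by linarith)
        have hmk : 0 ≤ m * κ := by positivity
        have h10 : m * (50 * (2 * L)) ≤ m * (2160 * κ + 350 * w) := by linarith
        exact le_of_mul_le_mul_left h10 (by linarith)
      · linarith
    -- κ (2 L + 7 κ) ≤ 50.2 κ^2 + 7 w κ
    have h11 : 50 * (κ * (2 * L + 7 * κ)) ≤ 2510 * (κ * κ) + 350 * (κ * w) := by
      have := mul_le_mul_of_nonneg_left h7 (by linarith : (0 : ℤ) ≤ κ)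
      linarith
    have h12 : 350 * (κ * w) ≤ 7385 * m := by linarith
    have hQm : 2000 * m ≤ Q * m := mul_le_mul_of_nonneg_right hQ (by linarith)
    have h13 : 7385 * m ≤ 4 * (Q * m) := by linarith
    -- κ^2 Q^2 ≤ 445.21 m^2
    have h14 : 10000 * ((κ * Q) * (κ * Q)) ≤ 4452100 * (m * m) := by
      have h15 : 100 * (κ * Q) ≤ 2110 * m := by
        have := mul_le_mul_of_nonneg_left hw (by linarith : (0 : ℤ) ≤ κ)
        linarith
      have h16 : (100 * (κ * Q)) * (100 * (κ * Q)) ≤ (2110 * m) * (2110 * m) :=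
        mul_le_mul h15 h15 (by positivity) (by linarith)
      linarith
    have h17 : 180000 * (m * m) ≤ (Q * Q) * (Q * m) := by
      have := mul_le_mul_of_nonneg_right hmQ (by linarith : (0 : ℤ) ≤ m)
      linarith
    have h18 : (Q * Q) * (400 * (κ * κ)) ≤ (Q * Q) * (Q * m) := by
      have : 0 ≤ m * m := by positivity
      linarith
    have h19 : 400 * (κ * κ) ≤ Q * m := le_of_mul_le_mul_left h18 (by positivity)
    -- total: 2510/400 Q m + 4 Q m ≤ 50 * (Q m / 4 - 7/4)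
    linarith

/-- The numbers of one step. -/
theorem tNum : S_Num := by
  intro m Q w z υ TA u d1 d k hm hQ hw hυ hz h30 hmQ h8 hA1 hA2 hu1 hu2 hd1 hd2 hd3 hd4 hk1 hk2
  obtain ⟨W, hWdef⟩ : ∃ W, W = Q * m / 8 := ⟨_, rfl⟩
  have hW1 : 8 * W ≤ Q * m := by omega
  have hW2 : Q * m ≤ 8 * W + 7 := by omega
  rw [← hWdef] at hu1 hu2 hd1 hd2 ⊢
  have t1 := two_T (u + 1)
  have t2 := two_T (u + 2)
  have t3 := two_T d1
  have t4 := two_T (d1 + 1)
  have t5 := two_T m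
  -- everything in the integers
  zify at hm hQ hw hυ hz h30 hmQ hA1 hA2 hu1 hu2 hd1 hd2 hd3 hd4 hk1 hk2 hW1 hW2 t1 t2 t3 t4 t5
  have hz0 : (0 : ℤ) ≤ z := Int.natCast_nonneg z
  have hυ0 : (0 : ℤ) ≤ υ := Int.natCast_nonneg υ
  have hu0 : (0 : ℤ) ≤ u := Int.natCast_nonneg u
  have hW0 : (0 : ℤ) ≤ W := Int.natCast_nonneg W
  have hd0 : (0 : ℤ) ≤ d := Int.natCast_nonneg d
  have hE0 : (0 : ℤ) ≤ d1 := Int.natCast_nonneg d1
  obtain ⟨N, hN⟩ : ∃ N : ℤ, N = (u : ℤ) + 1 := ⟨_, rfl⟩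
  obtain ⟨A, hA⟩ : ∃ A : ℤ, A = 2 * (TA : ℤ) := ⟨_, rfl⟩
  have hN1 : N * (N + 1) < A + 2 * W := by
    rw [hN, hA]
    linarith
  have hN2 : A + 2 * W ≤ (N + 1) * (N + 2) := by
    rw [hN, hA]
    linarith
  have hbT : (2 * ((w : ℤ) + 20 + υ) + 1) * ((m : ℤ) * (m + 1)) =
      2 * ((2 * ((w : ℤ) + 20 + υ) + 1) * (T m : ℤ)) := by
    rw [← t5]
    ring
  have hE1 : (d1 : ℤ) * (d1 + 1) < A + (2 * ((w : ℤ) + 20 + υ) + 1) * ((m : ℤ) * (m + 1)) +
      2 * W := by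
    rw [hA, hbT]
    linarith
  have hE2 : A + (2 * ((w : ℤ) + 20 + υ) + 1) * ((m : ℤ) * (m + 1)) + 2 * W ≤
      ((d1 : ℤ) + 1) * (d1 + 2) := by
    rw [hA, hbT]
    linarith
  have hA1' : A ≤ ((w : ℤ) ^ 2 + z) * ((m : ℤ) * (m + 1)) + 2 * Q * m := by
    rw [hA]
    exact hA1
  have hA2' : ((w : ℤ) ^ 2 + z) * ((m : ℤ) * (m + 1)) ≤ A + 2 * Q * m := by
    rw [hA]
    exact hA2
  have hN0 : 0 ≤ N := by linarith
  obtain ⟨hwm, hw2⟩ := num_size hm hQ hw hz0 h30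
  have hw2000 : (2000 : ℤ) ≤ w := hQ.trans hw
  have hm0 : (133333 : ℤ) ≤ m := by linarith
  have hwm' : 2000 * (m : ℤ) ≤ w * m := mul_le_mul_of_nonneg_right hw2000 (by linarith)
  have hNle := num_Nle hm hQ hw hz0 hz hW1 hA1' hN0 hN1.le
  have hleN := num_leN hm hQ hw hz0 hW0 hA2' hN0 hN2
  have hEle := num_Ele hm hQ hw hz0 hz hυ hW1 hwm hw2 hA1' hE0 hE1.le
  -- `N + 3 ≤ E`
  have hNE : N + 3 ≤ (d1 : ℤ) := by
    by_contra hlt
    push Not at hlt
    have h1 : ((d1 : ℤ) + 1) * (d1 + 2) ≤ (N + 3) * (N + 4) :=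
      mul_le_mul (by linarith) (by linarith) (by linarith) (by linarith)
    have h2 : 2 * (w : ℤ) * ((m : ℤ) * m) ≤
        (2 * ((w : ℤ) + 20 + υ) + 1) * ((m : ℤ) * (m + 1)) := by
      apply mul_le_mul (by linarith) (mul_le_mul_of_nonneg_left (by linarith) (by linarith))
        (by positivity) (by linarith)
    have h3 : 133333 * ((w : ℤ) * m) ≤ m * (w * m) :=
      mul_le_mul_of_nonneg_right hm0 (by positivity)
    linarith
  obtain ⟨hY1, hY2⟩ := num_y (m := (m : ℤ)) (w := (w : ℤ)) (v := (υ : ℤ)) (d := (d : ℤ)) hd3 hd4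
    (by linarith) hN1 hN2 hE1 hE2
  obtain ⟨hμ1, hμ2, hμ3⟩ := num_mu hm hw2000 hυ0 hυ hwm hNle hleN hN0 hd0 hEle hY1 hY2
  obtain ⟨κ, hκ⟩ : ∃ κ : ℤ, κ = (k : ℤ) - m := ⟨_, rfl⟩
  have hk1' : (d : ℤ) - N - m ≤ κ + 1 := by
    rw [hκ, hN]
    linarith
  have hk2' : κ ≤ (d : ℤ) - N - m + 1 := by
    rw [hκ, hN]
    linarith
  -- bounds of `2 χ_k`
  have hX : (2 : ℤ) * (m + κ + 1) * (d + 1) - (m + κ) * (m + κ + 1) ≤
      (d + 1) * (d + 2) - N * (N + 1) + 2 * N ∧ (d + 1) * (d + 2) - N * (N + 1) - 2 * N - 2 ≤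
      (2 : ℤ) * (m + κ + 1) * (d + 1) - (m + κ) * (m + κ + 1) := by
    have hcase : κ = (d : ℤ) - N - m - 1 ∨ κ = (d : ℤ) - N - m ∨ κ = (d : ℤ) - N - m + 1 := by
      omega
    rcases hcase with h | h | h
    · rw [h]
      constructor <;> linarith
    · rw [h]
      constructor <;> linarith
    · rw [h]
      constructor <;> linarith
  obtain ⟨L, hL⟩ : ∃ L : ℤ, L + ((w : ℤ) + 20 + υ + 1) * m = d + ((w : ℤ) + 20 + υ) * κ :=
    ⟨d + ((w : ℤ) + 20 + υ) * κ - ((w : ℤ) + 20 + υ + 1) * m, by ring⟩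
  obtain ⟨c1, c2, c3, c4⟩ := num_strip (W := (W : ℤ)) hm hQ hw hυ0 hυ hwm hw2 hmQ hW2 hNle hN0 hEle
    hk1' hk2' hμ2 hμ3 hL (by linarith [hX.1]) (by linarith [hX.2])
  refine ⟨?_, ?_, ?_, ?_⟩
  · zify
    linarith
  · zify
    have h1 : (Q : ℤ) * m ≤ w * m := mul_le_mul_of_nonneg_right hw (by linarith)
    linarith
  · zify
    linarith
  · refine ⟨κ.toNat, L.toNat, ?_⟩
    have hκ' : (κ.toNat : ℤ) = κ := Int.toNat_of_nonneg (by linarith)
    have hL' : (L.toNat : ℤ) = L := Int.toNat_of_nonneg (by linarith)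
    refine ⟨?_, ?_, ?_, ?_, ?_, ?_, ?_⟩
    · zify
      rw [hκ', hκ]
      ring
    · zify
      rw [hκ']
      exact c1
    · zify
      rw [hκ']
      linarith
    · zify
      rw [hκ] at c2
      linarith
    · zify
      rw [hκ', hL']
      exact hL
    · zify
      rw [hκ', hL']
      exact c3
    · zify
      rw [hκ', hL']
      exact c4

end ShghK
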