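import Pool.Agent.ShghC.MainG
import Pool.Agent.ShghC.Reduce

/-!
# ShghK, Spec: homogeneous systems with `s ^ 3 ≥ 10 ^ 11 m ^ 2` (statements, proofs in the docstrings)

THEOREM (C47, exponent `2 / 3`). Characteristic `0`: `s` generic points of multiplicity `m` impose
independent conditions on the polynomials of degree `≤ d`, or there is no such polynomial, for every
`d`, if `s ^ 3 ≥ 10 ^ 11 m ^ 2` (that is `m ≤ c s ^ (3/2)`).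

PLAN. `PI F W A`: windows of size `W` in all degrees. Lines only (`a = 1`), `b` odd points of
multiplicity `m` on a double line. (1) `S_StepPI`: windows do NOT add up: `PI W A` and box windows
`≤ W` give `PI W (A + m^b)`. (2) Boxes (`S_ElmA`, `S_ElmB`, `S_Peel`, `S_BoxWin`): `b` odd points of
multiplicity `m` on a strip of thickness `k = m + μ` become `b` generic points of multiplicity `μ`
in a box `k × L`: windows `μ (2 L + 7 μ) / 2`. (3) `Q` even: the square cluster `m^(Q^2)` is in the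
middle between the big points `κ` and `κ + 1`, `κ = Q m + Q/2 - 1`; so a critical `(d; m^s)` is
reduced (`S_Reduce`) to the two NON-critical systems `(d; κ, m^(s-Q^2))`, `(d; κ+1, m^(s-Q^2))`, which
are known by (1).
-/

namespace ShghK

open MvPolynomial ShghJ ShghC

universe u

/-- `φ_W(x) = max (0, x, min (W, x + W))`: `0` for `x ≤ -W`, `x` for `x ≥ W`, nondecreasing,
`φ(x + t) ≤ φ(x) + t` for `t ≥ 0` (if `0 ≤ W`). -/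
def phi (W x : ℤ) : ℤ := max (max 0 x) (min W (x + W))

/-- Windows of size `W` in all degrees: `h(e; A) ≤ φ_W(χ(e; A))`. -/
def PI (F : Type u) [Field F] (W : ℤ) (A : Multiset ℕ) : Prop :=
  ∀ e : ℕ, (hF F e A : ℤ) ≤ phi W ((T (e + 1) : ℤ) - TT A)

/-- The number of rows of a shape: rows `< τ` full (`i + k ≤ δ`), `r1` monomials in the row `τ`, `r2`
in the row `τ + 1`. -/
noncomputable def S2 (τ δ r1 r2 : ℕ) : Finset (Fin 2 →₀ ℕ) :=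
  boxSet (δ + τ + 1 + r1 + r2) fun i k =>
    (k < τ ∧ i + k ≤ δ) ∨ (k = τ ∧ i < r1) ∨ (k = τ + 1 ∧ i < r2)

/-- ELMA, ELMB: general elementary transformations `n = 1 → 0` and `n = 0 → 1`, `m ≤ t`. PROOF. Copy
of `ShghC.tElm0` (`Pool.Agent.ShghC.Elm0`). `K = UF F`, `p = up 0`, `x_j = up (j+1) 0 - up 0 0`,
`y_j = up (j+1) 1 - up 0 1` (`≠ 0`). `elm_special` with `Q_j = (x_j, x_j / y_j)` and the point `(0, 0)`
of multiplicity `m`. For `f` in this space (exponents `i + k ≥ m`, `k ≤ t`) let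
`f' = ∑ f_ik X^(i+k-m) Y^(t-k)` (`pmR fun e => ex (e 0 + e 1 - m) (t - e 1)`). Exponents
`i' = i + k - m`, `k' = t - k`: `i = i' + k' - (t - m) ≥ 0`, so `i' + k' ≥ t - m`: `f'` has multiplicity
`≥ t - m` at `(0, 0)` (`ShghE.tf_mem_iff` with shift `0`, see `elm_origin`, or
`mem_pow_idealOfVars_iff'`). Case `n = 1`: `i + k ≤ e` gives `i' ≤ e - m`: exponents in
`Sf 0 t (e - m)`. Case `n = 0`: `i ≤ e` gives `i' + k' ≤ e + (t - m)`. Multiplicities at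
`(x_j, y_j)`: `X^m f' = Y^t f(X, X/Y)` (`elm0_mult` with `d = t`, `elm0_mul` with `t` in place of the
second `m`), `S_Unit`. Finally translate by `p`: `f' ↦ f'(X - p0, Y - p1)` (`ShghE.tfShift`) maps
exponents in `Sf 0 t _` resp. `Sf 1 t _` into themselves (they are closed downwards:
`(i, k) ∈ N, i1 ≤ i, k1 ≤ k → (i1, k1) ∈ N`) and the points `(0,0)`, `(x_j, y_j)` to `up 0`, `up (j+1)`:
`S_NCons`. `e < m`: a nonzero polynomial of total degree `≤ e` has no point of multiplicity `m > e`. -/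
def S_ElmA : Prop := ∀ (F : Type u) [Field F] (t m e : ℕ) (B : Multiset ℕ), m ≤ t →
  (m ≤ e → hN F (Sf 1 t e) (m ::ₘ B) ≤ hN F (Sf 0 t (e - m)) ((t - m) ::ₘ B)) ∧
  (e < m → hN F (Sf 1 t e) (m ::ₘ B) = 0)

/-- See `S_ElmA`. -/
def S_ElmB : Prop := ∀ (F : Type u) [Field F] (t m e : ℕ) (B : Multiset ℕ), m ≤ t →
  hN F (Sf 0 t e) (m ::ₘ B) ≤ hN F (Sf 1 t (e + (t - m))) ((t - m) ::ₘ B)

/-- FLIP. PROOF. `S_NInv` with `K = UF F` and the points `(up i 1, up i 0)` (algebraically independent: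
`geo_algInd` composed with the equivalence `(i, c) ↦ (i, 1 - c)`); the algebra automorphism
`X 0 ↔ X 1` (`rename (Equiv.swap 0 1)`) maps `LN (Sf 0 a b) μ (swapped points)` onto
`LN (Sf 0 b a) μ (points)`. Enough: `≤` for all `a, b`. -/
def S_Flip : Prop := ∀ (F : Type u) [Field F] (a b : ℕ) (B : Multiset ℕ),
  hN F (Sf 0 a b) B = hN F (Sf 0 b a) B

/-- STRIPG0: `StripG` holds for `n = 0`. PROOF. `hN (Sf 0 τ e) B = hN (Sf 1 τ (e + τ)) (τ ::ₘ B)`: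
`≤` is `S_ElmB` with `m = 0` and `hN (0 ::ₘ B) = hN B` (`mMacN`), `≥` is `S_ElmA` with `m = τ` and the
same. `hg e`: `zero`, `anti`, `mac1`, `mac2` from `mMacN` for `N = Sf 0 τ e`; `coll2`: `mCollN` for
`N = Sf 1 τ (e + τ)` (its two closure hypotheses hold, see `stripG_c1`, `stripG_c2` in
`Pool.Agent.ShghC.StripG`) and the multiset `τ ::ₘ S` (`Multiset.cons_swap`); `big`: as in
`tStripG`, the total degree is `≤ e + τ`. `empty`, `mono`: `mStA`, `mStB`; `fib`, `fib0`: `mFib1`. -/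
def S_StripG0 : Prop := ∀ (F : Type u) [Field F] [CharZero F] (τ : ℕ),
  StripG 0 τ (fun e B => hN F (Sf 0 τ e) B)

/-- BOXWIN: windows of a box. PROOF. `S_Flip`, `S_StripG0`, `tWinG` with `n = 0`, `τ = L`, `M = μ`,
`e = k`: for all `B` with entries `≤ μ`, `χ B = (k+1)(L+1) - TT B`: (a) `1 ≤ h B` gives
`2 TT B + 2 ≤ 2 (k+1)(L+1) + μ (L + 4 μ)`; (b) `2 TT B + (μ-1)(2L + 7μ + 4) < 2 (k+1)(L+1)` gives
`h B = χ B`. Claims for `2 W ≥ μ (2L + 7μ)`: (i) `χ B ≥ W`: `h B = χ B` by (b), as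
`(μ-1)(2L+7μ+4) < 2W` (`3 μ ≤ L`). (ii) `h B ≤ χ B + W` if `χ B + W ≥ 0` and `h B = 0` if `χ B ≤ - W`:
add `z = χ B + W` simple points (`mNSimple`: `h (1 ::ₘ B) = h B - 1`), then `χ = - W`, and (a).
(iii) `h B ≤ W` if `χ B ≤ W`: induction on `B`: `B = 0`: `h 0 = (k+1)(L+1) = χ 0`. `B = m ::ₘ B1`: if
`χ B1 ≤ W`: `h B ≤ h B1 ≤ W` (`anti`). Otherwise take the least `j` with `χ (j ::ₘ B1) ≤ W`; `1 ≤ j ≤ m`,
`χ (j ::ₘ B1) = χ ((j-1) ::ₘ B1) - j > W - μ`, and (b) applies because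
`(μ-1)(2L+7μ+4) < 2 (W - μ) + 2`; so `h (m ::ₘ B1) ≤ h (j ::ₘ B1) = χ (j ::ₘ B1) ≤ W`. -/
def S_BoxWin : Prop := ∀ (F : Type u) [Field F] [CharZero F] (μ L k : ℕ) (W : ℤ) (B : Multiset ℕ),
  1 ≤ μ → (∀ x ∈ B, x ≤ μ) → 3 * μ ≤ L → 2 * μ ≤ k → (μ : ℤ) * (2 * L + 7 * μ) ≤ 2 * W →
  (hN F (Sf 0 k L) B : ℤ) ≤ phi W (((k : ℤ) + 1) * (L + 1) - TT B)

/-- PEEL: `2 j + 1` points of multiplicity `m` on a strip of thickness `t`, `m ≤ t ≤ 2 m`. PROOF.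
Induction on `j` for all `d`, `L`, `B`. `j = 0`: `S_ElmA`. `j + 1`: if `d < m`: `S_ElmA`, second claim.
Otherwise `S_ElmA` (to `Sf 0 t (d - m)`), `S_ElmB` (to `Sf 1 t (d - m + (t - m))`), induction
hypothesis with `B` replaced by `(t-m) ::ₘ (t-m) ::ₘ B` and `d - m + (t - m)` in place of `d`. In the
first claim `m ≤ d` because `t - m ≤ m`. (`Multiset.replicate_succ`, `Multiset.cons_add`,
`Multiset.add_cons`.) -/
def S_Peel : Prop := ∀ (F : Type u) [Field F] (t m j d : ℕ) (B : Multiset ℕ), m ≤ t → t ≤ 2 * m →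
  (∀ L : ℕ, L + (j + 1) * m = d + j * (t - m) →
    hN F (Sf 1 t d) (Multiset.replicate (2 * j + 1) m + B) ≤
      hN F (Sf 0 t L) (Multiset.replicate (2 * j + 1) (t - m) + B)) ∧
  (d + j * (t - m) < (j + 1) * m →
    hN F (Sf 1 t d) (Multiset.replicate (2 * j + 1) m + B) = 0)

/-- LINEWIN: `2 j + 1` points of multiplicity `m` on a strip of thickness `m + μ`. PROOF. `S_Peel` with
`t = m + μ`, `B = 0`, then `S_BoxWin` for `replicate (2j+1) μ`, `k = m + μ`, and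
`(k+1)(L+1) - (2j+1) T μ = (k+1)(d+1) - T k - (2j+1) T m`. -/
def S_LineWin : Prop := ∀ (F : Type u) [Field F] [CharZero F] (d m μ j L : ℕ) (W : ℤ),
  1 ≤ μ → μ ≤ m → m + μ ≤ d → L + (j + 1) * m = d + j * μ → 3 * μ ≤ L →
  (μ : ℤ) * (2 * L + 7 * μ) ≤ 2 * W →
  (hN F (Sf 1 (m + μ) d) (Multiset.replicate (2 * j + 1) m) : ℤ) ≤
    phi W (((m : ℤ) + μ + 1) * (d + 1) - T (m + μ) - (2 * j + 1) * T m)

/-- GLUEL: gluing along a line with two incomplete rows. PROOF. Copy of `ShghC.tGlueR`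
(`Pool.Agent.ShghC.GlueR`) with `a = 1`, `τ' = d - u` in place of `τ` and the region
`S2 (d-u-1) d r1 r2` in place of `St ..`: let `e ∈ Lx ..`, `k = e 1`. `XSide` (with `τ'`): `k ≤ τ'`, and
`e 0 < h_u(A)` if `k = τ'`. `tXRow` for `k < τ'` (`(k+1) * 1 ≤ d`): `e 0 + 1 + h_(d-k-1)(A) ≤
h_(d-k)(A)`; for `k = τ' - 1` this is `e 0 < r1`; for `k < τ' - 1` it gives `e 0 ≤ d - k` by
`hF_succ_le`. `hN (Trap j j) A = hF j A`: `hN_tri mProj`. -/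
def S_GlueL : Prop := ∀ (F : Type u) [Field F] [CharZero F] (d u : ℕ) (A B : Multiset ℕ),
  1 ≤ u → u + 2 ≤ d → hF F (u - 1) A = 0 →
  hF F d (A + B) ≤ hN F (S2 (d - u - 1) d (hF F (u + 1) A - hF F u A) (hF F u A)) B

/-- TWOROW. PROOF. In `K[X, Y]` over `K = UF F` (same points): `LN (S2 τ δ r1 r2) ⊓ LN (Sf 1 τ δ) =
LN (St 1 τ δ r1)`, `LN (S2 τ δ r1 r2) ⊔ LN (Sf 1 τ δ) ≤ LN (St 1 (τ+1) δ r2)` (exponents only: rows
`≤ τ` of `S2` are contained in the full rows because `r1 ≤ δ - τ + 1`; a polynomial in both spaces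
has no monomial in the row `τ + 1`), `Submodule.finrank_sup_add_finrank_inf_eq`. -/
def S_TwoRow : Prop := ∀ (F : Type u) [Field F] (τ δ r1 r2 : ℕ) (B : Multiset ℕ), τ + 1 ≤ δ →
  r1 ≤ δ - τ + 1 → hN F (S2 τ δ r1 r2) B + hN F (Sf 1 τ δ) B ≤
    hN F (St 1 τ δ r1) B + hN F (St 1 (τ + 1) δ r2) B

/-- LINEINEQ. PROOF. `i = d - u ≥ 2`, `τ = i - 1`, `η = h_u(A)`, `r1 = h_(u+1)(A) - η`. `S_GlueL`,
`S_TwoRow` (`r1 ≤ u + 2 = δ - τ + 1` by `hF_succ_le`), and `mRaise` (`n = 1`) twice: `τ`, `ρ = r1`: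
`hN (St 1 τ d r1) ≤ N_(i-2)` (`St 1 τ d 0 = Sf 1 (τ-1) d`, `closeR_St_zero`) or
`hN (St 1 τ d r1) + (u + 2 - r1) ≤ N_(i-1)`; `τ + 1`, `ρ = η ≤ u + 1` (`hF_succ_le` and
`h_(u-1)(A) = 0`): `hN (St 1 i d η) ≤ N_(i-1)` (`St 1 i d 0 = Sf 1 (i-1) d`) or
`hN (St 1 i d η) + (u + 1 - η) ≤ N_i`. -/
def S_LineIneq : Prop := ∀ (F : Type u) [Field F] [CharZero F] (d u : ℕ) (A B : Multiset ℕ),
  1 ≤ u → u + 2 ≤ d → hF F (u - 1) A = 0 →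
  (hF F d (A + B) : ℤ) ≤
    max (hN F (Sf 1 (d - u - 2) d) B : ℤ)
      ((hN F (Sf 1 (d - u - 1) d) B : ℤ) + hF F (u + 1) A - hF F u A - (u + 2)) +
    max 0 ((hN F (Sf 1 (d - u) d) B : ℤ) - hN F (Sf 1 (d - u - 1) d) B - (u + 1) + hF F u A)

/-- STEPA: windows do not add up (pure arithmetic; `u1 = u + 1` is the capacity of the line). PROOF.
`φ = phi W` is nondecreasing, `≥ 0`, `φ(x + t) ≤ φ(x) + t` (`t ≥ 0`), `φ(x) = x` for `x ≥ W`,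
`φ(x) = 0` for `x ≤ - W`. The left side is the maximum of (1) `a ≤ φ(y - u1 - 1) ≤ φ(x + y)`, as
`x + u1 + 1 ≥ 0`. (2) `ζ + x - η ≤ φ(y) + min (x, 0) ≤ φ(x + y)` (monotone if `x ≥ 0`, Lipschitz if
`x < 0`). (4) `(ζ + x - η) + (c - ζ - u1 + η) = x + c - u1 ≤ φ(x + y)`: `c ≤ φ(y + u1)` and Lipschitz,
`x ≤ u1`. (3) `a + (c - ζ - u1 + η)`: if `y ≥ u1 + 1 - W` then `ζ = y`, `c = y + u1` and it is `a + η`: if
`x ≤ - W`: `η = 0` and (1); otherwise `x + y ≥ u1 + 1 - 2 W ≥ 2 W`, so `φ(x + y) = x + y`; `a ≤ W` if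
`y - u1 - 1 ≤ W` (and `a + η ≤ 2 W ≤ x + y`), `a = y - u1 - 1` otherwise (`η ≤ W`, `x ≥ - W`,
`u1 + 1 ≥ 2 W`). If `y < u1 + 1 - W` then `a = 0`; if `y + u1 ≥ W`: `c = y + u1`, the term is
`≤ min (y, 0) + η ≤ φ(x + y)` as in (2); otherwise `c ≤ W`, `η ≤ W`, the term is `≤ 2 W - u1 ≤ 0`. -/
def S_StepA : Prop := ∀ (W u1 x y η a ζ c : ℤ), 0 ≤ W → 0 ≤ u1 → 4 * W ≤ u1 + 1 → - (u1 + 1) ≤ x → x ≤ W →
  max 0 x ≤ η → η ≤ phi W x → a ≤ phi W (y - u1 - 1) → max 0 y ≤ ζ → ζ ≤ phi W y →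
  c ≤ phi W (y + u1) →
  max a (ζ + x - η) + max 0 (c - ζ - u1 + η) ≤ phi W (x + y)

/-- STEPONE. PROOF. `x = χ(u; A)`, `u1 = u + 1`, `y = χ(d; A + B) - x`. `h_(u-1)(A) = 0`
(`χ(u-1; A) = x - (u+1) ≤ - W`), `h_(u+1)(A) = x + u + 2` (`χ ≥ W`; lower bound `HFun.chi_le`),
`χ_(d-u-1) = y`, `χ_(d-u) = y + u + 1`, `χ_(d-u-2) = y - (u + 2)` for `χ_k = (k+1)(d+1) - T k - TT B`
(`T (d+1) = T (d-k) + (k+1)(d+1) - T k`), lower bounds `max (0, χ_k) ≤ N_k` from `mStA`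
(`empty`, `low`). `S_LineIneq`, `S_StepA`. -/
def S_StepOne : Prop := ∀ (F : Type u) [Field F] [CharZero F] (W : ℤ) (A B : Multiset ℕ) (u d : ℕ),
  0 ≤ W → 1 ≤ u → 4 * W ≤ (u : ℤ) + 2 → (T (u + 1) : ℤ) - TT A < W → W ≤ (T (u + 2) : ℤ) - TT A →
  PI F W A → u + 2 ≤ d →
  (∀ k : ℕ, d ≤ u + k + 2 → u + k ≤ d → (hN F (Sf 1 k d) B : ℤ) ≤
    phi W (((k : ℤ) + 1) * (d + 1) - T k - TT B)) →
  (hF F d (A + B) : ℤ) ≤ phi W ((T (d + 1) : ℤ) - TT (A + B))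

/-- STEPPI. PROOF. `d1` is the least degree with `χ(d1; A + B) ≥ W`. Degree `d1`: `S_StepOne`, so the
dimension is `χ` (`HFun.chi_le`), and `hF_exact_mono` for all larger degrees. Degree `d1 - 1`:
`S_StepOne`. Degree `d1 - 2`: `χ(d1-2) = χ(d1-1) - d1 < W - d1 ≤ - W`, so the dimension is `0` by
`S_StepOne`, and `0` in all smaller degrees (`hF F e S ≤ hF F (e+1) S`: `mStB` with `Sf 1 t e =
Trap e e`, `hN_tri`; see `hF_succ_le` in `ShghC/MainG`). -/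
def S_StepPI : Prop := ∀ (F : Type u) [Field F] [CharZero F] (W : ℤ) (A B : Multiset ℕ) (u d1 : ℕ),
  0 ≤ W → 1 ≤ u → 4 * W ≤ (u : ℤ) + 2 → (T (u + 1) : ℤ) - TT A < W → W ≤ (T (u + 2) : ℤ) - TT A →
  u + 4 ≤ d1 → (T d1 : ℤ) - TT (A + B) < W → W ≤ (T (d1 + 1) : ℤ) - TT (A + B) →
  PI F W A →
  (∀ d k : ℕ, d1 ≤ d + 2 → d ≤ d1 → d ≤ u + k + 2 → u + k ≤ d → (hN F (Sf 1 k d) B : ℤ) ≤
    phi W (((k : ℤ) + 1) * (d + 1) - T k - TT B)) →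
  PI F W (A + B)

/-- SQGT: square numbers of equal points, every degree. PROOF. `m = 0`: clear. `m = 1`: simple points
(`mNSimple` with `hN_tri`, or `mHom`: `30 ≤ q^2`, or `HFun`). `q^2 ≥ 30 m`: `mHom`. So let `m ≥ 2` and
`n = q`, `n^2 < 30 m`, hence `n ≤ 4 m`; induction on `n` (`n = 0` clear; `n = 1, 2`: `tRep (tClu (tFour
(tLine tUnit)))` with `h = 0, 1`). Let `n ≥ 3`, `q = n - 1`, `A = m^(q^2)` (`GT` by induction, `q^2 <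
30 m`), `b = 2 q + 1`, `B = m^b`, `S = m^(n^2) = A + B`. `8 χ(d; S) = (2d+3)^2 - n^2 (2m+1)^2 + n^2 - 1`.
So the least `D` with `χ(D; S) ≥ 0` is `2 D + 3 = n (2m+1) + ε`, `ε = 0` (`n` odd), `ε = 1` (`n` even)
(as `n^2 + 3 < 4 n (2m+1)`, `n < 4m + 2`), and `D' = D - m - ε` is the least degree with
`χ(D'; A) ≥ 0`. It is enough (`hF_exact_mono` above, monotonicity below) to treat the degrees `D` (`h ≤ χ`)
and `D - 1` (`h = 0`). Strips: `N_k = hN (Sf 1 k d) B`, `E = d + 1 - n m`: for `d = D`: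
`E = (n - 1 + ε)/2`, for `d = D - 1`: one less; `0 ≤ E ≤ n - 1`. Write `χ_k = (k+1)(d+1) - T k - b T m`.
`N_m = χ_m = (m+1) E` (`≤`: `S_Peel`, `t = m`, `j = q`, `L = E - 1`, no points left (`mMacN`: multiplicity
`0`); `0` if `E = 0`; `≥`: `mStA` `empty`, `low`). `N_(m+1) ≤ χ_(m+1) = (m+2)(E + q) - b = χ_m + (d - m)`
(`S_Peel`, `t = m + 1`, `L = E + q - 1`, `b` simple points, `mNSimple`). `N_(m-1) = 0` (and `N_(m-2) = 0`,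
`Sf 1 (m-2) d ⊆ Sf 1 (m-1) d`): `mFib1` (`τ = m - 1`) `b` times: `N_(m-1) ≤ hN (Sf 1 (m-1) (d - b))
(m-1)^b` (`0` if `d < b`), and `S_Peel` (`t = m - 1`, points `m - 1`), second claim: `d - b < n (m - 1)`,
i.e. `E ≤ n - 1`. `S_LineIneq` in four cases (`1 ≤ u`, `u + 2 ≤ d` clear). (1) `n` odd, `d = D`:
`u = D' - 1`, `d - u = m + 1`, `h(u; A) = h(u-1; A) = 0`: first term `max (0, N_m + h(u+1; A) - (u+2)) ≤
max (0, χ_m + χ(u; A)) = max (0, χ(D; S))`, second `max (0, N_(m+1) - N_m - (u+1)) = 0` (`d - m = u + 1`).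
(2) `n` odd, `d = D - 1`: `u = D' - 1`, `d - u = m`: first term `max (N_(m-2), N_(m-1) + h(u+1; A) -
(u+2)) = 0`, second `max (0, N_m - N_(m-1) - (u+1)) = 0` (`(m+1)(n-3)/2 ≤ D' = (n-1) m + (n-3)/2`).
(3) `n` even, `d = D - 1`: `u = D' - 1`, `d - u = m + 1`: first term `max (0, χ_m + χ(u; A)) =
max (0, χ(D-1; S)) = 0`, second `0` as in (1). (4) `n` even, `d = D`: `u = D'`, `d - u = m + 1`,
`h(u-1; A) = 0`, `h(u+1; A) - h(u; A) = u + 2`: `N_m + max (0, N_(m+1) - N_m - (u+1) + h(u; A)) ≤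
χ_m + h(u; A) = χ(D; S)`. -/
def S_SqGT : Prop := ∀ (F : Type u) [Field F] [CharZero F] (m q : ℕ),
  GT F (Multiset.replicate (q ^ 2) m)

/-- CLUSTER NUMBERS. `Q = 2 c` even, `κ = Q m + c - 1`. PROOF. `T (κ+1) - Q^2 T m = c m + c/2 + c^2/2 =
(c (2 m + 1) + c^2) / 2`, `Q^2 T m - T κ = (c (2m + 1) - c^2) / 2`. -/
def S_Kap : Prop := ∀ (m c : ℕ), 1 ≤ m → 1 ≤ c →
  2 * ((T (2 * c * m + c) : ℤ) - (2 * c) ^ 2 * T m) = c * (2 * m + 1) + c ^ 2 ∧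
  2 * (((2 * c) ^ 2 * T m : ℤ) - T (2 * c * m + c - 1)) = c * (2 * m + 1) - c ^ 2

/-- PATH: from `Q^2` to `s`. `s_i = (Q+i)^2 + 40 i + 2 (i - (p - ρ))` (truncated), `i = 0, .., p`.
PROOF. `R` = the largest number with `R ≡ s (mod 2)`, `R^2 + 1800 ≤ s`; so
`s < (R+2)^2 + 1800`; `p` = the largest number with `p ≡ R (mod 2)`, `40 p ≤ s - R^2`
(`p ≥ 40`), `Q = R - p` (even, as `p ≡ R`), `2 ρ = s - R^2 - 40 p < 80` (even: `s ≡ R^2`, so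
`ρ < 40 ≤ p`). `p ≤ (4R + 1804)/40 ≤ R/9` (`R ≥ 9900`), so `8 p ≤ Q`, `9 Q ≥ 8 R` and `7 s ≤ 7 (R^2 + 4R + 1804) ≤
9 Q^2`. -/
def S_Path : Prop := ∀ s : ℕ, 10 ^ 8 ≤ s → ∃ Q p ρ : ℕ, Q % 2 = 0 ∧ ρ ≤ p ∧ ρ < 40 ∧
  s = (Q + p) ^ 2 + 40 * p + 2 * ρ ∧ 8 * p ≤ Q ∧ 7 * s ≤ 9 * Q ^ 2

/-- NUM: the numbers of one step, `a = 20`. `w = Q + i`, `s' = w^2 + z` points (`z = 40 i + 2 v`),
`b = 2 j + 1`, `j = w + 20 + υ`. `W = Q m / 8` (rounded down). (helper18 proves this; tested by computer, `L ≥ 12 μ`.) -/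
def S_Num : Prop := ∀ (m Q w z υ TA u d1 d k : ℕ), 1 ≤ m → 2000 ≤ Q → Q ≤ w → υ ≤ 1 →
  z ≤ 5 * w → w ^ 2 + z ≤ 30 * m → 180000 * m ≤ Q ^ 3 → 8 * w ≤ 9 * Q →
  2 * TA ≤ (w ^ 2 + z) * (m * (m + 1)) + 2 * Q * m →
  (w ^ 2 + z) * (m * (m + 1)) ≤ 2 * TA + 2 * Q * m →
  T (u + 1) < TA + Q * m / 8 → TA + Q * m / 8 ≤ T (u + 2) →
  T d1 < TA + (2 * (w + 20 + υ) + 1) * T m + Q * m / 8 →
  TA + (2 * (w + 20 + υ) + 1) * T m + Q * m / 8 ≤ T (d1 + 1) →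
  d1 ≤ d + 2 → d ≤ d1 → d ≤ u + k + 2 → u + k ≤ d →
  1 ≤ u ∧ 4 * (Q * m / 8) ≤ u + 2 ∧ u + 4 ≤ d1 ∧ ∃ μ L : ℕ, k = m + μ ∧ 1 ≤ μ ∧ μ ≤ m ∧ k ≤ d ∧
    L + (w + 20 + υ + 1) * m = d + (w + 20 + υ) * μ ∧ 3 * μ ≤ L ∧
    μ * (2 * L + 7 * μ) ≤ 2 * (Q * m / 8)

/-- CHAIN: windows for `K + m^(s_i - Q^2)`. PROOF. Induction on `i ≤ p` from `S_StepPI`, `S_LineWin`
and `S_Num`: `s_(i+1) - s_i = 2 (Q + i) + 41 + 2 υ_i`, `υ_i = 1` if `p - ρ ≤ i`, and `0` otherwise;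
`z = 40 i + 2 (i - (p - ρ)) ≤ 5 (Q + i)` (as `i ≤ p ≤ Q/8` and `i - (p - ρ) ≤ ρ < 40`);
`2 TT (K + m^(s_i - Q^2)) = 2 TT K + (s_i - Q^2) m (m+1)`. `u`, `d1` exist because `T` is unbounded
(`Nat.find`); `PI F W K` for `GT F K`: `hF = max (0, χ) ≤ φ_W(χ)`. -/
def S_Chain : Prop := ∀ (F : Type u) [Field F] [CharZero F] (m Q p ρ : ℕ) (K : Multiset ℕ),
  1 ≤ m → 2000 ≤ Q → ρ ≤ p → ρ < 40 → 8 * p ≤ Q → (Q + p) ^ 2 + 40 * p + 2 * ρ ≤ 30 * m →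
  180000 * m ≤ Q ^ 3 → GT F K → 2 * TT K ≤ Q ^ 2 * (m * (m + 1)) + 2 * Q * m →
  Q ^ 2 * (m * (m + 1)) ≤ 2 * TT K + 2 * Q * m →
  PI F ((Q * m / 8 : ℕ) : ℤ)
    (K + Multiset.replicate ((Q + p) ^ 2 + 40 * p + 2 * ρ - Q ^ 2) m)

/-- HOM23: THE THEOREM. PROOF. `s ≥ 30 m`: `mHom`. Otherwise `s < 30 m`, so `s ^ 3 ≥ 10 ^ 11 m ^ 2 ≥
10 ^ 8 s ^ 2`, `s ≥ 10 ^ 8`; `S_Path`: `Q`, `p`, `ρ`; `Q ^ 6 ≥ (7/9)^3 s^3 ≥ 4.7 * 10 ^ 10 m ^ 2`, so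
`Q ^ 3 ≥ 180000 m`. `W = Q m / 8`. `S_Chain` for `K = m^(Q^2)` (`S_SqGT`), `{κ}`, `{κ+1}` (`GT`: as
`q = 1` in `S_SqGT`), `κ = Q m + Q/2 - 1` (`S_Kap`: `|2 TT K - Q^2 m (m+1)| ≤ 2 Q m`, as `Q ≤ 2 m`).
`χ = χ(d; m^s)`: if `χ ≥ W` or `χ ≤ - W`: `K = m^(Q^2)`. Otherwise `tReduce` with `B = m^(Q^2)`,
`A = m^(s - Q^2)`: `χ(d; κ, A) ≥ - W + (c (2m+1) - c^2)/2 ≥ W` (`c = Q/2 ≤ m`: it is `≥ c m / 2 = Q m / 4`)
and `χ(d; κ+1, A) ≤ W - (c (2m+1) + c^2)/2 ≤ - W`: both formulas hold by `PI`; `κ ≤ d` because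
`h(κ - 1; κ) = 0 ..` or directly: `T (d+1) ≥ TT (m^s) - W ≥ T (κ+1)`. -/
def S_Hom23 : Prop := ∀ (F : Type u) [Field F] [CharZero F] (d m s : ℕ), 1 ≤ m →
  10 ^ 11 * m ^ 2 ≤ s ^ 3 → hF F d (Multiset.replicate s m) = T (d + 1) - s * T m

end ShghK
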